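import Pool.Agent.Helper36_RF.Chr

/-!
# The Ricci-DeTurck operator commutes with rotations (module RDTR)
-/

noncomputable section

open scoped ContDiff Topology RealInnerProductSpace
set_option maxSynthPendingDepth 3
set_option linter.unusedSectionVars false
open Set

namespace Pool.Agent.Helper25RF

open Pool.Agent.RF

variable {ι : Type} [Fintype ι] [DecidableEq ι]

theorem sum_coord_smul_eb (v : E ι) : ∑ k, v k • eb k = v := by
  have h := (EuclideanSpace.basisFun ι ℝ).sum_repr v
  simpa [eb] using h

theorem inner_eb (v : E ι) (k : ι) : ⟪v, eb k⟫ = v k := by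
  have h := EuclideanSpace.inner_single_right (𝕜 := ℝ) k (1 : ℝ) v
  rw [one_mul] at h
  exact h

theorem inner_eb' (v : E ι) (k : ι) : ⟪eb k, v⟫ = v k := by
  rw [real_inner_comm, inner_eb]

theorem sum_ginv (g : Bil (E ι)) (k : ι) :
    ∑ l, ginv g k l • eb l = g.inverse (EuclideanSpace.proj k) := by
  unfold ginv
  exact sum_coord_smul_eb _

/-- background Christoffel symbols are invariant under rotations -/
theorem bgchris_rot (R : E ι ≃ₗᵢ[ℝ] E ι) (x v w : E ι) :
    bgchris (R x) (R v) (R w) = R (bgchris x v w) := by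
  unfold bgchris
  simp only [map_smul, map_sub, map_add, LinearIsometryEquiv.norm_map,
    LinearIsometryEquiv.inner_map_map]

theorem bgchris_add_right (x v w w' : E ι) :
    bgchris x v (w + w') = bgchris x v w + bgchris x v w' := by
  unfold bgchris
  rw [inner_add_right, inner_add_right]
  module

theorem bgchris_smul_right (x v w : E ι) (c : ℝ) :
    bgchris x v (c • w) = c • bgchris x v w := by
  unfold bgchris
  rw [real_inner_smul_right, real_inner_smul_right]
  module

theorem bgchris_symm (x v w : E ι) : bgchris x v w = bgchris x w v := by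
  unfold bgchris
  rw [real_inner_comm w v]
  module

/-- the difference of the connections -/
def dif (G : E ι → Bil (E ι)) (x v w : E ι) : E ι := chris G x v w - bgchris x v w

theorem dif_add_right (G : E ι → Bil (E ι)) (x v w w' : E ι) :
    dif G x v (w + w') = dif G x v w + dif G x v w' := by
  unfold dif
  rw [chris_add_right, bgchris_add_right]
  abel

theorem dif_smul_right (G : E ι → Bil (E ι)) (x v w : E ι) (c : ℝ) :
    dif G x v (c • w) = c • dif G x v w := by
  unfold dif
  rw [chris_smul_right, bgchris_smul_right, smul_sub]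

theorem dif_add_left (G : E ι → Bil (E ι)) (x v v' w : E ι) :
    dif G x (v + v') w = dif G x v w + dif G x v' w := by
  unfold dif
  rw [chris_add_left, bgchris_symm, bgchris_add_right, bgchris_symm x w v, bgchris_symm x w v']
  abel

theorem dif_smul_left (G : E ι → Bil (E ι)) (x v w : E ι) (c : ℝ) :
    dif G x (c • v) w = c • dif G x v w := by
  unfold dif
  rw [chris_smul_left, bgchris_symm, bgchris_smul_right, bgchris_symm x w v, smul_sub]

theorem dif_sum_right (G : E ι → Bil (E ι)) (x v : E ι) {κ : Type*} (s : Finset κ) (c : κ → ℝ)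
    (w : κ → E ι) : dif G x v (∑ l ∈ s, c l • w l) = ∑ l ∈ s, c l • dif G x v (w l) := by
  classical
  induction s using Finset.induction_on with
  | empty =>
    have := dif_smul_right G x v 0 0
    simpa using this
  | insert a s ha ih => rw [Finset.sum_insert ha, dif_add_right, dif_smul_right, ih,
      Finset.sum_insert ha]

theorem dif_sum_left (G : E ι → Bil (E ι)) (x w : E ι) {κ : Type*} (s : Finset κ) (c : κ → ℝ)
    (v : κ → E ι) : dif G x (∑ l ∈ s, c l • v l) w = ∑ l ∈ s, c l • dif G x (v l) w := by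
  classical
  induction s using Finset.induction_on with
  | empty =>
    have := dif_smul_left G x 0 w 0
    simpa using this
  | insert a s ha ih => rw [Finset.sum_insert ha, dif_add_left, dif_smul_left, ih,
      Finset.sum_insert ha]

theorem dtW_eq (G : E ι → Bil (E ι)) (x : E ι) :
    dtW G x = ∑ k, dif G x (eb k) ((G x).inverse (EuclideanSpace.proj k)) := by
  unfold dtW
  refine Finset.sum_congr rfl fun k _ => ?_
  rw [← sum_ginv, dif_sum_right]
  rfl

theorem dtW_rot (G : E ι → Bil (E ι)) (R : E ι ≃ₗᵢ[ℝ] E ι)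
    (hG : IsMetricOn G (Om ι)) (hP : IsMetricOn (pullb G R) (Om ι))
    (hch : ∀ x ∈ Om ι, ∀ v w, chris G (R x) (R v) (R w) = R (chris (pullb G R) x v w))
    (hp : ∀ x v w, pullb G R x v w = G (R x) (R v) (R w))
    (x : E ι) (hx : x ∈ Om ι) :
    dtW (pullb G R) x = R.symm (dtW G (R x)) := by
  have hRx : R x ∈ Om ι := by
    intro h
    apply hx
    rw [← R.map_zero] at h
    exact R.injective h
  have hdif : ∀ v w, dif (pullb G R) x v w = R.symm (dif G (R x) (R v) (R w)) := by
    intro v w
    unfold dif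
    rw [hch x hx, bgchris_rot, ← map_sub, LinearIsometryEquiv.symm_apply_apply]
  -- inverse of the pulled back metric
  have hinv : ∀ k : ι, R ((pullb G R x).inverse (EuclideanSpace.proj k)) =
      ∑ a, (R (eb k)) a • (G (R x)).inverse (EuclideanSpace.proj a) := by
    intro k
    apply (hG.inv hRx).injective
    apply ContinuousLinearMap.ext
    intro z
    have h1 : G (R x) (R ((pullb G R x).inverse (EuclideanSpace.proj k))) z =
        pullb G R x ((pullb G R x).inverse (EuclideanSpace.proj k)) (R.symm z) := by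
      rw [hp, LinearIsometryEquiv.apply_symm_apply]
    rw [h1, (hP.inv hx).self_apply_inverse]
    rw [map_sum, _root_.sum_apply]
    have h2 : ∀ a, (G (R x) ((R (eb k)) a • (G (R x)).inverse (EuclideanSpace.proj a))) z =
        (R (eb k)) a * z a := by
      intro a
      rw [map_smul, (hG.inv hRx).self_apply_inverse]
      simp
    rw [Finset.sum_congr rfl fun a _ => h2 a]
    have h3 : (EuclideanSpace.proj k : E ι →L[ℝ] ℝ) (R.symm z) = ⟪R (eb k), z⟫ := by
      have h31 : (EuclideanSpace.proj k : E ι →L[ℝ] ℝ) (R.symm z) = ⟪eb k, R.symm z⟫ :=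
        (inner_eb' (R.symm z) k).symm
      rw [h31, ← LinearIsometryEquiv.inner_map_map R, LinearIsometryEquiv.apply_symm_apply]
    rw [h3, PiLp.inner_apply]
    simp [mul_comm]
  rw [dtW_eq, dtW_eq, map_sum]
  have h4 : ∀ k, dif (pullb G R) x (eb k) ((pullb G R x).inverse (EuclideanSpace.proj k)) =
      ∑ a, (R (eb k)) a • R.symm (dif G (R x) (R (eb k)) ((G (R x)).inverse
        (EuclideanSpace.proj a))) := by
    intro k
    rw [hdif, hinv, dif_sum_right, map_sum]
    refine Finset.sum_congr rfl fun a _ => ?_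
    rw [map_smul]
  rw [Finset.sum_congr rfl fun k _ => h4 k, Finset.sum_comm]
  refine Finset.sum_congr rfl fun a _ => ?_
  have h5 : ∑ k, (R (eb k)) a • R (eb k) = eb a := by
    have h6 : R.symm (eb a) = ∑ k, (R (eb k)) a • eb k := by
      rw [← sum_coord_smul_eb (R.symm (eb a))]
      refine Finset.sum_congr rfl fun k _ => ?_
      congr 1
      rw [← inner_eb (R.symm (eb a)) k, ← inner_eb (R (eb k)) a, real_inner_comm,
        ← LinearIsometryEquiv.inner_map_map R, LinearIsometryEquiv.apply_symm_apply]
    have h7 := congrArg R h6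
    rw [LinearIsometryEquiv.apply_symm_apply, map_sum] at h7
    rw [h7]
    refine Finset.sum_congr rfl fun k _ => ?_
    rw [map_smul]
  calc ∑ k, (R (eb k)) a • R.symm (dif G (R x) (R (eb k)) ((G (R x)).inverse
        (EuclideanSpace.proj a)))
      = R.symm (∑ k, (R (eb k)) a • dif G (R x) (R (eb k)) ((G (R x)).inverse
        (EuclideanSpace.proj a))) := by
        rw [map_sum]
        refine Finset.sum_congr rfl fun k _ => ?_
        rw [map_smul]
    _ = _ := by
        rw [← dif_sum_left, h5]

theorem rdtRot (hD : DiffeoStatement) : RdtRotStatement := by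
  intro ι _ _ G R hG
  have hRm : MapsTo (R : E ι → E ι) (Om ι) (Om ι) := by
    intro x hx h
    apply hx
    rw [← R.map_zero] at h
    exact R.injective h
  have hfd : ∀ y : E ι, fderiv ℝ (R : E ι → E ι) y = (R : E ι →L[ℝ] E ι) := by
    intro y
    exact (R.toContinuousLinearEquiv : E ι →L[ℝ] E ι).fderiv
  have hopen : IsOpen (Om ι) := hG.isOpen
  obtain ⟨hP, hstar, hric⟩ := hD ι ι G R (Om ι) (Om ι) hG hopen
    (R.toContinuousLinearEquiv.contDiff.contDiffOn) hRm (by
      intro y _
      rw [hfd]
      exact ⟨R.toContinuousLinearEquiv, rfl⟩)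
  refine ⟨hP, ?_⟩
  have hp : ∀ x v w, pullb G R x v w = G (R x) (R v) (R w) := by
    intro x v w
    rw [pullb_apply, hfd]
    rfl
  have hch : ∀ x ∈ Om ι, ∀ v w, chris G (R x) (R v) (R w) = R (chris (pullb G R) x v w) := by
    intro x hx v w
    have h1 := hstar x hx v w
    simp only [hfd] at h1
    rw [fderiv_fun_const] at h1
    simpa using h1
  have hdt := dtW_rot G R hG hP hch hp
  intro x hx v w
  have hRx : R x ∈ Om ι := hRm hx
  have h1 : ric (pullb G R) x v w = ric G (R x) (R v) (R w) := by
    rw [hric x hx, hfd]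
    rfl
  have h2 : ∀ u a b, fderiv ℝ (pullb G R) x u a b = fderiv ℝ G (R x) (R u) (R a) (R b) := by
    intro u a b
    have hpe : pullb G R = fun y => (G (R y)).bilinearComp (R : E ι →L[ℝ] E ι)
        (R : E ι →L[ℝ] E ι) := by
      funext y
      unfold pullb
      rw [hfd]
    have hGd : HasFDerivAt (fun y => G (R y)) ((fderiv ℝ G (R x)).comp (R : E ι →L[ℝ] E ι)) x :=
      (hG.diffAt hRx).hasFDerivAt.comp x (R : E ι →L[ℝ] E ι).hasFDerivAt
    have hev : ∀ a b : E ι, HasFDerivAt (fun y => pullb G R y a b)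
        (((ContinuousLinearMap.apply ℝ ℝ (R b)).comp
          (ContinuousLinearMap.apply ℝ (E ι →L[ℝ] ℝ) (R a))).comp
        ((fderiv ℝ G (R x)).comp (R : E ι →L[ℝ] E ι))) x := by
      intro a b
      have := (((ContinuousLinearMap.apply ℝ ℝ (R b)).comp
        (ContinuousLinearMap.apply ℝ (E ι →L[ℝ] ℝ) (R a))).hasFDerivAt).comp x hGd
      refine this.congr_of_eventuallyEq (Filter.Eventually.of_forall fun y => ?_)
      exact hp y a b
    have hev2 : HasFDerivAt (fun y => pullb G R y a b)
        (((ContinuousLinearMap.apply ℝ ℝ b).comp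
          (ContinuousLinearMap.apply ℝ (E ι →L[ℝ] ℝ) a)).comp
        (fderiv ℝ (pullb G R) x)) x :=
      (((ContinuousLinearMap.apply ℝ ℝ b).comp
        (ContinuousLinearMap.apply ℝ (E ι →L[ℝ] ℝ) a)).hasFDerivAt).comp x
          (hP.diffAt hx).hasFDerivAt
    have h3 := congrArg (fun L : E ι →L[ℝ] ℝ => L u) (hev2.unique (hev a b))
    simpa using h3
  have h3 : fderiv ℝ (dtW (pullb G R)) x =
      (R.symm : E ι →L[ℝ] E ι).comp ((fderiv ℝ (dtW G) (R x)).comp (R : E ι →L[ℝ] E ι)) := by
    have h4 : dtW (pullb G R) =ᶠ[𝓝 x] fun y => R.symm (dtW G (R y)) := by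
      filter_upwards [hopen.mem_nhds hx] with y hy
      exact hdt y hy
    rw [h4.fderiv_eq]
    have h5 := (R.symm.toContinuousLinearEquiv).comp_fderiv (f := fun y => dtW G (R y)) (x := x)
    have h6 := (R.toContinuousLinearEquiv).comp_right_fderiv (f := dtW G) (x := x)
    have h7 : (fun y => R.symm (dtW G (R y))) = (R.symm.toContinuousLinearEquiv) ∘
      (fun y => dtW G (R y)) := rfl
    rw [h7, h5]
    congr 1
  have h8 : fderiv ℝ G (R x) (R (dtW (pullb G R) x)) (R v) (R w) =
      fderiv ℝ G (R x) (dtW G (R x)) (R v) (R w) := by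
    rw [hdt x hx, LinearIsometryEquiv.apply_symm_apply]
  have h9 : ∀ u, R (fderiv ℝ (dtW (pullb G R)) x u) = fderiv ℝ (dtW G) (R x) (R u) := by
    intro u
    rw [h3]
    exact R.apply_symm_apply _
  unfold rdt
  rw [h1, h2, h8, hp, hp, h9, h9]

end Pool.Agent.Helper25RF
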