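import Pool.Agent.Helper36_RF.Rot
import Pool.Agent.Helper36_RF.Chr
import Pool.Agent.Helper25_RF.Rdtr

/-!
# Lie derivatives of homogeneous fields along rotations
-/

noncomputable section

open scoped ContDiff Topology RealInnerProductSpace
set_option maxSynthPendingDepth 3
set_option linter.unusedSectionVars false
open Set

namespace Pool.Agent.Helper25RF

open Pool.Agent.RF

variable {ι : Type} [Fintype ι] [DecidableEq ι]

/-- `g ↦ g(J·,·) + g(·,J·)` -/
def adj (J : E ι →L[ℝ] E ι) : Bil (E ι) →L[ℝ] Bil (E ι) :=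
  (ContinuousLinearMap.compL ℝ (E ι) (E ι) (E ι →L[ℝ] ℝ)).flip J +
  ContinuousLinearMap.compL ℝ (E ι) (E ι →L[ℝ] ℝ) (E ι →L[ℝ] ℝ)
    ((ContinuousLinearMap.compL ℝ (E ι) (E ι) ℝ).flip J)

theorem adj_apply (J : E ι →L[ℝ] E ι) (g : Bil (E ι)) (v w : E ι) :
    adj J g v w = g (J v) w + g v (J w) := rfl

theorem lieX_eq (J : E ι →L[ℝ] E ι) (u : E ι → Bil (E ι)) (x : E ι) :
    lieX J u x = fderiv ℝ u x (J x) + adj J (u x) := by
  unfold lieX
  rw [add_assoc]
  rfl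

theorem isOpen_Om : IsOpen (Om ι) := by
  have : Om ι = {0}ᶜ := by ext x; simp [Om]
  rw [this]
  exact isOpen_compl_singleton

theorem smul_mem_Om {c : ℝ} (hc : 0 < c) {x : E ι} (hx : x ∈ Om ι) : c • x ∈ Om ι :=
  smul_ne_zero hc.ne' hx

section Homogeneous

variable {u : E ι → Bil (E ι)} (hs : ContDiffOn ℝ ∞ u (Om ι)) (hh : Homog u)
include hs

theorem diffAt_Om {x : E ι} (hx : x ∈ Om ι) : DifferentiableAt ℝ u x :=
  ((hs x hx).contDiffAt (isOpen_Om.mem_nhds hx)).differentiableAt (by simp)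

theorem contDiffOn_fderiv_Om : ContDiffOn ℝ ∞ (fderiv ℝ u) (Om ι) :=
  hs.fderiv_of_isOpen isOpen_Om (by simp)

theorem diffAt_fderiv_Om {x : E ι} (hx : x ∈ Om ι) : DifferentiableAt ℝ (fderiv ℝ u) x :=
  ((contDiffOn_fderiv_Om hs x hx).contDiffAt (isOpen_Om.mem_nhds hx)).differentiableAt (by simp)

theorem contDiffOn_lieX (J : E ι →L[ℝ] E ι) : ContDiffOn ℝ ∞ (lieX J u) (Om ι) := by
  have h1 : lieX J u = fun x => fderiv ℝ u x (J x) + adj J (u x) := by
    funext x; exact lieX_eq J u x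
  rw [h1]
  exact ((contDiffOn_fderiv_Om hs).clm_apply J.contDiff.contDiffOn).add
    ((adj J).contDiff.comp_contDiffOn hs)

theorem hasFDerivAt_lieX (J : E ι →L[ℝ] E ι) {x : E ι} (hx : x ∈ Om ι) :
    HasFDerivAt (lieX J u) ((fderiv ℝ u x).comp J + (fderiv ℝ (fderiv ℝ u) x).flip (J x)
      + (adj J).comp (fderiv ℝ u x)) x := by
  have h1 : lieX J u = fun x => fderiv ℝ u x (J x) + adj J (u x) := by
    funext x; exact lieX_eq J u x
  rw [h1]
  exact ((diffAt_fderiv_Om hs hx).hasFDerivAt.clm_apply J.hasFDerivAt).add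
    ((adj J).hasFDerivAt.comp x (diffAt_Om hs hx).hasFDerivAt)

theorem lieX_lieX (J : E ι →L[ℝ] E ι) {x : E ι} (hx : x ∈ Om ι) :
    lieX J (lieX J u) x = fderiv ℝ (fderiv ℝ u) x (J x) (J x) + fderiv ℝ u x (J (J x))
      + adj J (fderiv ℝ u x (J x)) + adj J (lieX J u x) := by
  rw [lieX_eq J (lieX J u) x, (hasFDerivAt_lieX hs J hx).fderiv]
  simp only [_root_.add_apply, ContinuousLinearMap.comp_apply, ContinuousLinearMap.flip_apply]
  abel

include hh

theorem fderiv_homog {c : ℝ} (hc : 0 < c) {x : E ι} (hx : x ∈ Om ι) :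
    fderiv ℝ u (c • x) = (c ^ 3)⁻¹ • fderiv ℝ u x := by
  have h1 : HasFDerivAt (fun y : E ι => u (c • y))
      ((fderiv ℝ u (c • x)).comp (c • ContinuousLinearMap.id ℝ (E ι))) x :=
    (diffAt_Om hs (smul_mem_Om hc hx)).hasFDerivAt.comp x
      ((c • ContinuousLinearMap.id ℝ (E ι)).hasFDerivAt)
  have h2 : HasFDerivAt (fun y : E ι => u (c • y)) ((c ^ 2)⁻¹ • fderiv ℝ u x) x := by
    refine ((diffAt_Om hs hx).hasFDerivAt.const_smul ((c ^ 2)⁻¹)).congr_of_eventuallyEq ?_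
    filter_upwards [isOpen_Om.mem_nhds hx] with y hy
    exact hh c hc y hy
  have h3 := h1.unique h2
  apply ContinuousLinearMap.ext
  intro z
  have h4 := congrArg (fun L => c⁻¹ • L z) h3
  simp only [ContinuousLinearMap.comp_apply, _root_.smul_apply, ContinuousLinearMap.id_apply,
    map_smul, smul_smul] at h4
  rw [inv_mul_cancel₀ hc.ne', one_smul] at h4
  rw [h4, _root_.smul_apply]
  congr 1
  field_simp

theorem homog_lieX (J : E ι →L[ℝ] E ι) : Homog (lieX J u) := by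
  intro c hc x hx
  rw [lieX_eq, lieX_eq, fderiv_homog hs hh hc hx, hh c hc x hx, map_smul, map_smul, map_smul,
    _root_.smul_apply, smul_smul, smul_add]
  congr 2
  field_simp

theorem euler {x : E ι} (hx : x ∈ Om ι) : fderiv ℝ u x x = (-2 : ℝ) • u x := by
  -- differentiate `c ↦ u (c x)` at `c = 1`
  have h1 : HasDerivAt (fun c : ℝ => u (c • x)) (fderiv ℝ u x x) 1 := by
    have h0 : HasFDerivAt u (fderiv ℝ u x) ((1 : ℝ) • x) := by
      rw [one_smul]; exact (diffAt_Om hs hx).hasFDerivAt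
    have h2 : HasDerivAt (fun c : ℝ => c • x) x 1 := by
      simpa using (hasDerivAt_id (1 : ℝ)).smul_const x
    exact h0.comp_hasDerivAt 1 h2
  have h3 : HasDerivAt (fun c : ℝ => (c ^ 2)⁻¹ • u x) ((-2 : ℝ) • u x) 1 := by
    have h4 : HasDerivAt (fun c : ℝ => (c ^ 2)⁻¹) (-2) 1 := by
      exact ((hasDerivAt_pow 2 (1 : ℝ)).fun_inv (by norm_num)).congr_deriv (by norm_num)
    exact h4.smul_const (u x)
  have h5 : HasDerivAt (fun c : ℝ => u (c • x)) ((-2 : ℝ) • u x) 1 := by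
    refine h3.congr_of_eventuallyEq ?_
    filter_upwards [isOpen_Ioi.mem_nhds (by norm_num : (1 : ℝ) ∈ Ioi 0)] with c hc
    exact hh c hc x hx
  exact h1.unique h5

theorem euler2 {x : E ι} (hx : x ∈ Om ι) :
    fderiv ℝ (fderiv ℝ u) x x x = (6 : ℝ) • u x := by
  have h1 : HasFDerivAt (fun y => fderiv ℝ u y y)
      ((fderiv ℝ u x).comp (ContinuousLinearMap.id ℝ (E ι))
        + (fderiv ℝ (fderiv ℝ u) x).flip x) x :=
    (diffAt_fderiv_Om hs hx).hasFDerivAt.clm_apply (hasFDerivAt_id x)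
  have h2 : HasFDerivAt (fun y => fderiv ℝ u y y) ((-2 : ℝ) • fderiv ℝ u x) x := by
    refine ((diffAt_Om hs hx).hasFDerivAt.const_smul (-2 : ℝ)).congr_of_eventuallyEq ?_
    filter_upwards [isOpen_Om.mem_nhds hx] with y hy
    exact euler hs hh hy
  have h3 := congrArg (fun L => L x) (h1.unique h2)
  simp only [_root_.add_apply, ContinuousLinearMap.comp_apply, ContinuousLinearMap.id_apply,
    ContinuousLinearMap.flip_apply, _root_.smul_apply] at h3
  rw [euler hs hh hx] at h3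
  have h4 : fderiv ℝ (fderiv ℝ u) x x x = (-2 : ℝ) • (-2 : ℝ) • u x - (-2 : ℝ) • u x := by
    rw [← h3]; abel
  rw [h4]
  module

end Homogeneous

/-- the derivative in the direction `e_k` in terms of the Lie derivatives -/
def Pk (k : ι) (x : E ι) (g : Bil (E ι)) (L : ι × ι → Bil (E ι)) : Bil (E ι) :=
  (√2) • ∑ i, x i • (L (k, i) - adj (Jst (k, i)) g) - (2 * x k) • g

theorem Jst_apply (a : ι × ι) (x : E ι) :
    Jst a x = (√2)⁻¹ • (x a.2 • eb a.1 - x a.1 • eb a.2) := rfl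

theorem sum_sq (x : E ι) : ∑ i, x i * x i = ‖x‖ ^ 2 := by
  rw [← real_inner_self_eq_norm_sq, PiLp.inner_apply]
  exact Finset.sum_congr rfl fun i _ => rfl

theorem sqrt_two_mul_inv : √2 * (√2)⁻¹ = (1 : ℝ) := mul_inv_cancel₀ (by positivity)

theorem sum_Jst (k : ι) (x : E ι) :
    (√2) • ∑ i, x i • Jst (k, i) x = ‖x‖ ^ 2 • eb k - x k • x := by
  have h1 : ∀ i, x i • Jst (k, i) x = (√2)⁻¹ • ((x i * x i) • eb k - x k • (x i • eb i)) := by
    intro i
    rw [Jst_apply]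
    module
  rw [Finset.sum_congr rfl fun i _ => h1 i, ← Finset.smul_sum, smul_smul, sqrt_two_mul_inv,
    one_smul, Finset.sum_sub_distrib, ← Finset.sum_smul, sum_sq, ← Finset.smul_sum,
    sum_coord_smul_eb]

theorem fderiv_eb {u : E ι → Bil (E ι)} (hs : ContDiffOn ℝ ∞ u (Om ι)) (hh : Homog u)
    {x : E ι} (hx : x ∈ Om ι) (k : ι) :
    ‖x‖ ^ 2 • fderiv ℝ u x (eb k) = Pk k x (u x) (fun a => lieX (Jst a) u x) := by
  have h1 : ‖x‖ ^ 2 • eb k = (√2) • ∑ i, x i • Jst (k, i) x + x k • x := by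
    rw [sum_Jst]; abel
  rw [← map_smul, h1, map_add, map_smul, map_sum, map_smul, euler hs hh hx]
  unfold Pk
  have h2 : ∀ i, (fderiv ℝ u x) (x i • Jst (k, i) x) =
      x i • (lieX (Jst (k, i)) u x - adj (Jst (k, i)) (u x)) := by
    intro i
    rw [map_smul, lieX_eq]
    congr 1
    abel
  rw [Finset.sum_congr rfl fun i _ => h2 i]
  module

theorem fderiv_eb_unit {u : E ι → Bil (E ι)} (hs : ContDiffOn ℝ ∞ u (Om ι)) (hh : Homog u)
    {x : E ι} (hx : x ∈ Om ι) (h1 : ‖x‖ = 1) (k : ι) :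
    fderiv ℝ u x (eb k) = Pk k x (u x) (fun a => lieX (Jst a) u x) := by
  have := fderiv_eb hs hh hx k
  rwa [h1, one_pow, one_smul] at this

/-- second derivatives in terms of iterated Lie derivatives -/
def Skl (l k : ι) (x : E ι) (g : Bil (E ι)) (L : ι × ι → Bil (E ι))
    (M : ι × ι → ι × ι → Bil (E ι)) : Bil (E ι) :=
  -((2 * x l) • Pk k x g L) + (√2) • ∑ i, ((eb l : E ι) i • (L (k, i) - adj (Jst (k, i)) g)
      + x i • (Pk l x (L (k, i)) (fun a => M a (k, i)) - adj (Jst (k, i)) (Pk l x g L)))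
    - ((2 * (eb l : E ι) k) • g + (2 * x k) • Pk l x g L)

theorem hasFDerivAt_coord (i : ι) (x : E ι) :
    HasFDerivAt (fun y : E ι => y i) (EuclideanSpace.proj i : E ι →L[ℝ] ℝ) x :=
  (EuclideanSpace.proj i : E ι →L[ℝ] ℝ).hasFDerivAt

theorem fderiv2_eb {u : E ι → Bil (E ι)} (hs : ContDiffOn ℝ ∞ u (Om ι)) (hh : Homog u)
    {x : E ι} (hx : x ∈ Om ι) (h1 : ‖x‖ = 1) (l k : ι) :
    fderiv ℝ (fderiv ℝ u) x (eb l) (eb k) =
      Skl l k x (u x) (fun a => lieX (Jst a) u x) (fun a b => lieX (Jst a) (lieX (Jst b) u) x) := by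
  -- left hand side
  have hA : HasFDerivAt (fun y : E ι => ‖y‖ ^ 2 • fderiv ℝ u y (eb k))
      (‖x‖ ^ 2 • (fderiv ℝ (fderiv ℝ u) x).flip (eb k)
        + ((2 : ℝ) • (innerSL ℝ x : E ι →L[ℝ] ℝ)).smulRight (fderiv ℝ u x (eb k))) x := by
    have h2 : HasFDerivAt (fun y : E ι => ‖y‖ ^ 2) ((2 : ℝ) • (innerSL ℝ x : E ι →L[ℝ] ℝ)) x := by
      refine (hasStrictFDerivAt_norm_sq x).hasFDerivAt.congr_fderiv ?_
      apply ContinuousLinearMap.ext
      intro z
      rw [two_smul, two_smul]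
    have h3 : HasFDerivAt (fun y : E ι => fderiv ℝ u y (eb k))
        ((fderiv ℝ (fderiv ℝ u) x).flip (eb k)) x := by
      have := (diffAt_fderiv_Om hs hx).hasFDerivAt.clm_apply (hasFDerivAt_const (eb k) x)
      simpa using this
    exact h2.smul h3
  -- right hand side
  have hP : ∀ i, HasFDerivAt (fun y : E ι => y i • (lieX (Jst (k, i)) u y
      - adj (Jst (k, i)) (u y)))
      (x i • (fderiv ℝ (lieX (Jst (k, i)) u) x - (adj (Jst (k, i))).comp (fderiv ℝ u x))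
        + (EuclideanSpace.proj i : E ι →L[ℝ] ℝ).smulRight
          (lieX (Jst (k, i)) u x - adj (Jst (k, i)) (u x))) x := by
    intro i
    have h4 : HasFDerivAt (lieX (Jst (k, i)) u) (fderiv ℝ (lieX (Jst (k, i)) u) x) x :=
      (diffAt_Om (contDiffOn_lieX hs _) hx).hasFDerivAt
    have h5 : HasFDerivAt (fun y => adj (Jst (k, i)) (u y))
        ((adj (Jst (k, i))).comp (fderiv ℝ u x)) x :=
      (adj (Jst (k, i))).hasFDerivAt.comp x (diffAt_Om hs hx).hasFDerivAt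
    exact (hasFDerivAt_coord i x).smul (h4.sub h5)
  have hB : HasFDerivAt (fun y : E ι => Pk k y (u y) (fun a => lieX (Jst a) u y))
      ((√2) • ∑ i, (x i • (fderiv ℝ (lieX (Jst (k, i)) u) x
          - (adj (Jst (k, i))).comp (fderiv ℝ u x))
        + (EuclideanSpace.proj i : E ι →L[ℝ] ℝ).smulRight
          (lieX (Jst (k, i)) u x - adj (Jst (k, i)) (u x)))
        - ((2 * x k) • fderiv ℝ u x
          + ((2 : ℝ) • (EuclideanSpace.proj k : E ι →L[ℝ] ℝ)).smulRight (u x))) x := by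
    unfold Pk
    refine HasFDerivAt.sub ?_ ?_
    · exact (HasFDerivAt.fun_sum fun i _ => hP i).const_smul (√2)
    · exact ((hasFDerivAt_coord k x).const_mul (2 : ℝ)).smul (diffAt_Om hs hx).hasFDerivAt
  have hAB : (fun y : E ι => Pk k y (u y) (fun a => lieX (Jst a) u y)) =ᶠ[𝓝 x]
      (fun y : E ι => ‖y‖ ^ 2 • fderiv ℝ u y (eb k)) := by
    filter_upwards [isOpen_Om.mem_nhds hx] with y hy
    exact (fderiv_eb hs hh hy k).symm
  have h6 := congrArg (fun T : E ι →L[ℝ] Bil (E ι) => T (eb l))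
    (hA.unique (hB.congr_of_eventuallyEq hAB.symm))
  simp only [_root_.add_apply, _root_.smul_apply, _root_.sub_apply, _root_.sum_apply,
    ContinuousLinearMap.flip_apply, ContinuousLinearMap.smulRight_apply,
    ContinuousLinearMap.comp_apply, h1, one_pow, one_smul] at h6
  have h7 : ∀ i, fderiv ℝ (lieX (Jst (k, i)) u) x (eb l) =
      Pk l x (lieX (Jst (k, i)) u x) (fun a => lieX (Jst a) (lieX (Jst (k, i)) u) x) := fun i =>
    fderiv_eb_unit (contDiffOn_lieX hs _) (homog_lieX hs hh _) hx h1 l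
  simp only [h7, fderiv_eb_unit hs hh hx h1] at h6
  have h8 : (innerSL ℝ x : E ι →L[ℝ] ℝ) (eb l) = x l := inner_eb x l
  have h9 : ∀ i, (EuclideanSpace.proj i : E ι →L[ℝ] ℝ) (eb l) = (eb l : E ι) i := fun i => rfl
  simp only [h8, h9, smul_eq_mul] at h6
  unfold Skl
  rw [eq_sub_of_add_eq h6, Finset.sum_congr rfl fun i _ => add_comm _ _]
  abel

end Pool.Agent.Helper25RF
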