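import Pool.Agent.Helper36_RF.Rot
import Pool.Agent.Helper25_RF.Rdtr

/-!
# One-parameter groups: generators, rotations
-/

noncomputable section

open scoped ContDiff Topology RealInnerProductSpace
set_option maxSynthPendingDepth 3
set_option linter.unusedSectionVars false
open Set MeasureTheory

namespace Pool.Agent.Helper25RF

open Pool.Agent.RF

section Abstract

variable {𝓔 : Type} [NormedAddCommGroup 𝓔] [NormedSpace ℝ 𝓔] {Γ A : Type} [Fintype A]
  {R : RotSys 𝓔 Γ A}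

theorem hasGen_deriv {g : Γ} {f f' : 𝓔} (h : R.HasGen g f f') (s : ℝ) :
    HasDerivAt (fun s => R.T g s f) (R.T g s f') s := by
  have h1 : HasDerivAt (fun r => R.T g s (R.T g r f)) (R.T g s f') 0 :=
    (R.T g s).hasFDerivAt.comp_hasDerivAt 0 h
  have h2 : HasDerivAt (fun r : ℝ => r - s) 1 s := by
    simpa using (hasDerivAt_id s).sub_const s
  have h1' : HasDerivAt (fun r => R.T g s (R.T g r f)) (R.T g s f') (s - s) := by
    rw [sub_self]; exact h1
  have h3 := HasDerivAt.scomp (h := fun r : ℝ => r - s) s h1' h2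
  rw [one_smul] at h3
  refine h3.congr_of_eventuallyEq (Filter.Eventually.of_forall fun r => ?_)
  show R.T g r f = R.T g s (R.T g (r - s) f)
  rw [← R.T_add]
  congr 2
  ring

theorem hasGen_unique {g : Γ} {f f' f'' : 𝓔} (h : R.HasGen g f f') (h' : R.HasGen g f f'') :
    f' = f'' := h.unique h'

theorem hasGen_add {g : Γ} {f f' k k' : 𝓔} (h : R.HasGen g f f') (h' : R.HasGen g k k') :
    R.HasGen g (f + k) (f' + k') := by
  have h1 := HasDerivAt.add h h'
  refine h1.congr_of_eventuallyEq (Filter.Eventually.of_forall fun r => ?_)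
  show R.T g r (f + k) = _
  rw [map_add]
  rfl

theorem hasGen_smul {g : Γ} {f f' : 𝓔} (h : R.HasGen g f f') (c : ℝ) :
    R.HasGen g (c • f) (c • f') := by
  have h1 := HasDerivAt.const_smul c h
  refine h1.congr_of_eventuallyEq (Filter.Eventually.of_forall fun r => ?_)
  show R.T g r (c • f) = _
  rw [map_smul]
  rfl

theorem hasGen_zero (g : Γ) : R.HasGen g 0 0 := by
  show HasDerivAt (fun s => R.T g s (0 : 𝓔)) 0 0
  simp only [map_zero]
  exact hasDerivAt_const _ _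

theorem hasGen_sum {κ : Type*} (s : Finset κ) {g : Γ} {f f' : κ → 𝓔}
    (h : ∀ i ∈ s, R.HasGen g (f i) (f' i)) : R.HasGen g (∑ i ∈ s, f i) (∑ i ∈ s, f' i) := by
  classical
  induction s using Finset.induction_on with
  | empty => exact hasGen_zero g
  | insert a s ha ih =>
    rw [Finset.sum_insert ha, Finset.sum_insert ha]
    exact hasGen_add (h a (Finset.mem_insert_self a s))
      (ih fun i hi => h i (Finset.mem_insert_of_mem hi))

theorem intervalIntegrable_T (g : Γ) (f : 𝓔) (a b : ℝ) :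
    IntervalIntegrable (fun r => R.T g r f) volume a b :=
  (R.cont_T g f).intervalIntegrable a b

variable [CompleteSpace 𝓔]

theorem hasGen_integral {g : Γ} {f f' : 𝓔} (h : R.HasGen g f f') (s : ℝ) :
    R.T g s f - f = ∫ r in (0 : ℝ)..s, R.T g r f' := by
  rw [intervalIntegral.integral_eq_sub_of_hasDerivAt (fun r _ => hasGen_deriv h r)
    (intervalIntegrable_T g f' 0 s), R.T_zero]

theorem hasGen_of_integral {g : Γ} {f f' : 𝓔}
    (h : ∀ s, R.T g s f - f = ∫ r in (0 : ℝ)..s, R.T g r f') : R.HasGen g f f' := by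
  have h1 : HasDerivAt (fun s => ∫ r in (0 : ℝ)..s, R.T g r f') (R.T g 0 f') 0 :=
    intervalIntegral.integral_hasDerivAt_right (intervalIntegrable_T g f' 0 0)
      ((R.cont_T g f').stronglyMeasurableAtFilter _ _) (R.cont_T g f').continuousAt
  rw [R.T_zero] at h1
  have h2 : HasDerivAt (fun s => (∫ r in (0 : ℝ)..s, R.T g r f') + f) f' 0 := h1.add_const f
  refine h2.congr_of_eventuallyEq (Filter.Eventually.of_forall fun s => ?_)
  show R.T g s f = (∫ r in (0 : ℝ)..s, R.T g r f') + f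
  rw [← h s]
  abel

/-- generators are closed -/
theorem hasGen_closed {κ : Type*} {l : Filter κ} [l.NeBot] {g : Γ} {f f' : 𝓔} {F F' : κ → 𝓔}
    (hF : Filter.Tendsto F l (𝓝 f)) (hF' : Filter.Tendsto F' l (𝓝 f'))
    (h : ∀ᶠ i in l, R.HasGen g (F i) (F' i)) : R.HasGen g f f' := by
  apply hasGen_of_integral
  intro s
  have h1 : Filter.Tendsto (fun i => R.T g s (F i) - F i) l (𝓝 (R.T g s f - f)) :=
    (((R.T g s).continuous.tendsto f).comp hF).sub hF
  have h2 : Filter.Tendsto (fun i => ∫ r in (0 : ℝ)..s, R.T g r (F' i)) l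
      (𝓝 (∫ r in (0 : ℝ)..s, R.T g r f')) := by
    rw [tendsto_iff_norm_sub_tendsto_zero]
    have h3 : ∀ i, ‖(∫ r in (0 : ℝ)..s, R.T g r (F' i)) - ∫ r in (0 : ℝ)..s, R.T g r f'‖ ≤
        ‖F' i - f'‖ * |s - 0| := by
      intro i
      rw [← intervalIntegral.integral_sub (intervalIntegrable_T g _ 0 s)
        (intervalIntegrable_T g _ 0 s)]
      apply intervalIntegral.norm_integral_le_of_norm_le_const
      intro r _
      rw [← map_sub, R.norm_T]
    have h4 : Filter.Tendsto (fun i => ‖F' i - f'‖ * |s - 0|) l (𝓝 0) := by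
      have := (tendsto_iff_norm_sub_tendsto_zero.1 hF').mul_const |s - 0|
      rwa [zero_mul] at this
    exact squeeze_zero (fun i => norm_nonneg _) h3 h4
  refine tendsto_nhds_unique h1 (h2.congr' ?_)
  filter_upwards [h] with i hi
  exact (hasGen_integral hi s).symm

/-- the generator in a general direction -/
theorem hasGen_dir (H : Heat R) {f : 𝓔} {fa : A → 𝓔} (hf : ∀ a, R.HasGen (R.J a) f (fa a))
    (g : Γ) : R.HasGen g f (∑ a, R.c g a • fa a) := by
  have hS : ∀ f : 𝓔, Filter.Tendsto (fun t => H.S t f) (𝓝[>] 0) (𝓝 f) := by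
    intro f
    have h1 := (H.cont f) 0 (by simp)
    have h2 : Filter.Tendsto (fun t => H.S t f) (𝓝[Ici 0] 0) (𝓝 f) := by
      have h3 : Filter.Tendsto (fun t => H.S t f) (𝓝[Ici 0] 0) (𝓝 (H.S 0 f)) := h1
      rwa [H.S_zero] at h3
    exact h2.mono_left (nhdsWithin_mono 0 Ioi_subset_Ici_self)
  have h2 : Filter.Tendsto (fun t => ∑ a, R.c g a • H.S t (fa a)) (𝓝[>] 0)
      (𝓝 (∑ a, R.c g a • fa a)) :=
    tendsto_finsetSum _ fun a _ => (hS (fa a)).const_smul (R.c g a)
  refine hasGen_closed (hS f) h2 ?_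
  filter_upwards [self_mem_nhdsWithin] with t ht
  have h3 := H.gen_dir g t ht f
  have h4 : ∀ a, H.Y a t f = H.S t (fa a) := fun a => H.S_gen a t ht f (fa a) (hf a)
  simp only [h4] at h3
  exact h3

end Abstract

section Rotations

variable {ι : Type} [Fintype ι] [DecidableEq ι]

theorem rot_zero (J : E ι →L[ℝ] E ι) : rot J 0 = ContinuousLinearMap.id ℝ (E ι) := by
  unfold rot
  rw [zero_smul]
  exact NormedSpace.exp_zero

theorem rot_add (J : E ι →L[ℝ] E ι) (s t : ℝ) : rot J (s + t) = (rot J s).comp (rot J t) := by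
  unfold rot
  let _ : NormedAlgebra ℚ (E ι →L[ℝ] E ι) := NormedAlgebra.restrictScalars ℚ ℝ _
  rw [add_smul]
  exact NormedSpace.exp_add_of_commute
    (((Commute.refl J).smul_left s).smul_right t)

theorem rot_neg (J : E ι →L[ℝ] E ι) (s : ℝ) (x : E ι) : rot J s (rot J (-s) x) = x := by
  have h := rot_add J s (-s)
  rw [add_neg_cancel, rot_zero] at h
  have h2 := congrArg (fun L : E ι →L[ℝ] E ι => L x) h
  exact h2.symm

theorem rot_neg' (J : E ι →L[ℝ] E ι) (s : ℝ) (x : E ι) : rot J (-s) (rot J s x) = x := by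
  have h := rot_neg J (-s) x
  rwa [neg_neg] at h

theorem hasDerivAt_rot (J : E ι →L[ℝ] E ι) (s : ℝ) (x : E ι) :
    HasDerivAt (fun s => rot J s x) (J (rot J s x)) s := by
  have h1 : HasDerivAt (fun s : ℝ => NormedSpace.exp (s • J)) (J * NormedSpace.exp (s • J)) s :=
    hasDerivAt_exp_smul_const' J s
  have h2 := (ContinuousLinearMap.apply ℝ (E ι) x).hasFDerivAt.comp_hasDerivAt s h1
  exact h2

theorem norm_rot {J : E ι →L[ℝ] E ι} (hJ : ∀ v w, ⟪J v, w⟫ = -⟪v, J w⟫) (s : ℝ) (x : E ι) :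
    ‖rot J s x‖ = ‖x‖ := by
  have h1 : ∀ r : ℝ, HasDerivAt (fun s => ⟪rot J s x, rot J s x⟫) 0 r := by
    intro r
    have h2 := (hasDerivAt_rot J r x).inner ℝ (hasDerivAt_rot J r x)
    have h3 : ⟪rot J r x, J (rot J r x)⟫ + ⟪J (rot J r x), rot J r x⟫ = 0 := by
      rw [hJ]; ring
    rw [h3] at h2
    exact h2
  have h4 : ⟪rot J s x, rot J s x⟫ = ⟪rot J 0 x, rot J 0 x⟫ :=
    is_const_of_deriv_eq_zero (fun r => (h1 r).differentiableAt) (fun r => (h1 r).deriv) s 0
  rw [rot_zero, real_inner_self_eq_norm_sq] at h4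
  have h5 : ⟪(ContinuousLinearMap.id ℝ (E ι)) x, (ContinuousLinearMap.id ℝ (E ι)) x⟫ = ‖x‖ ^ 2 :=
    real_inner_self_eq_norm_sq x
  rw [h5] at h4
  exact (pow_left_inj₀ (norm_nonneg _) (norm_nonneg _) two_ne_zero).1 h4

/-- the rotation as a linear isometry -/
def rotE (J : Gam ι) (s : ℝ) : E ι ≃ₗᵢ[ℝ] E ι :=
  LinearIsometryEquiv.ofSurjective
    ({ toLinearMap := (rot J.1 s).toLinearMap, norm_map' := fun x => norm_rot J.2.1 s x } :
      E ι →ₗᵢ[ℝ] E ι) (fun y => ⟨rot J.1 (-s) y, rot_neg J.1 s y⟩)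

theorem rotE_apply (J : Gam ι) (s : ℝ) (x : E ι) : rotE J s x = rot J.1 s x := rfl

/-- the rotated point of the sphere -/
def rotS (J : Gam ι) (s : ℝ) (x : Sph ι) : Sph ι :=
  ⟨rot J.1 s x, by
    have h1 : ‖(x : E ι)‖ = 1 := mem_sphere_zero_iff_norm.1 x.2
    rw [mem_sphere_zero_iff_norm, norm_rot J.2.1, h1]⟩

theorem rotS_coe (J : Gam ι) (s : ℝ) (x : Sph ι) : (rotS J s x : E ι) = rot J.1 s x := rfl

/-- the conjugate direction -/
def cj (J : Gam ι) (s : ℝ) (K : Gam ι) : Gam ι :=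
  ⟨((rot J.1 s).comp K.1).comp (rot J.1 (-s)), by
    have hin : ∀ v w : E ι, ⟪rot J.1 s v, w⟫ = ⟪v, rot J.1 (-s) w⟫ := by
      intro v w
      have h1 : ⟪rotE J s v, rotE J s (rot J.1 (-s) w)⟫ = ⟪v, rot J.1 (-s) w⟫ :=
        LinearIsometryEquiv.inner_map_map _ _ _
      rw [rotE_apply, rotE_apply, rot_neg] at h1
      exact h1
    refine ⟨fun v w => ?_, ?_⟩
    · show ⟪rot J.1 s (K.1 (rot J.1 (-s) v)), w⟫ = -⟪v, rot J.1 s (K.1 (rot J.1 (-s) w))⟫
      rw [hin, K.2.1, real_inner_comm _ v, hin, real_inner_comm]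
    · refine ContinuousLinearMap.opNorm_le_bound _ zero_le_one fun v => ?_
      show ‖rot J.1 s (K.1 (rot J.1 (-s) v))‖ ≤ _
      rw [norm_rot J.2.1]
      refine (K.1.le_opNorm _).trans ?_
      rw [norm_rot J.2.1]
      exact mul_le_mul_of_nonneg_right K.2.2 (norm_nonneg v)⟩

theorem rot_cj (J : Gam ι) (s : ℝ) (K : Gam ι) (q : ℝ) (x : E ι) :
    rot (cj J s K).1 q (rot J.1 s x) = rot J.1 s (rot K.1 q x) := by
  let _ : NormedAlgebra ℚ (E ι →L[ℝ] E ι) := NormedAlgebra.restrictScalars ℚ ℝ _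
  let y : (E ι →L[ℝ] E ι)ˣ :=
    { val := rot J.1 s
      inv := rot J.1 (-s)
      val_inv := by
        apply ContinuousLinearMap.ext; intro x; exact rot_neg J.1 s x
      inv_val := by
        apply ContinuousLinearMap.ext; intro x; exact rot_neg' J.1 s x }
  have h1 := NormedSpace.exp_units_conj y (q • K.1)
  have h2 : (y : E ι →L[ℝ] E ι) * (q • K.1) * ((y⁻¹ : (E ι →L[ℝ] E ι)ˣ) : E ι →L[ℝ] E ι) =
      q • (cj J s K).1 := by
    rw [mul_smul_comm, smul_mul_assoc]
    rfl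
  rw [h2] at h1
  have h3 := congrArg (fun L : E ι →L[ℝ] E ι => L (rot J.1 s x)) h1
  have h4 : ((y : E ι →L[ℝ] E ι) * NormedSpace.exp (q • K.1) *
      ((y⁻¹ : (E ι →L[ℝ] E ι)ˣ) : E ι →L[ℝ] E ι)) (rot J.1 s x) =
      rot J.1 s (rot K.1 q (rot J.1 (-s) (rot J.1 s x))) := rfl
  rw [rot_neg'] at h4
  exact h3.trans h4

end Rotations

end Pool.Agent.Helper25RF
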