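import Pool.Agent.Helper36_RF.ExistSt
import Pool.Agent.Helper25_RF.Lie
import Pool.Agent.Helper25_RF.RotBasic

/-!
# Rotation equivariance of the nonlinearity (module EQUIV)
-/

noncomputable section

open scoped ContDiff Topology RealInnerProductSpace
set_option maxSynthPendingDepth 3
set_option linter.unusedSectionVars false
open Set

namespace Pool.Agent.Helper25RF

open Pool.Agent.RF

variable {ι : Type} [Fintype ι] [DecidableEq ι]

/-- evaluation at a point of the sphere -/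
def evS (x : Sph ι) : C(Sph ι, Bil (E ι)) →L[ℝ] Bil (E ι) := ContinuousMap.evalCLM ℝ x

theorem evS_apply (x : Sph ι) (f : C(Sph ι, Bil (E ι))) : evS x f = f x := rfl

section Action

variable {R : RotSys C(Sph ι, Bil (E ι)) (Gam ι) (ι × ι)} (hR : IsRotSys R)
include hR

theorem T_vw (J : Gam ι) (s : ℝ) (f : C(Sph ι, Bil (E ι))) (x : Sph ι) (v w : E ι) :
    R.T J s f x v w = f (rotS J s x) (rot J.1 s v) (rot J.1 s w) := by
  rw [hR.T_apply J s f x (rotS J s x) rfl]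
  rfl

theorem T_conj (J K : Gam ι) (s q : ℝ) (f : C(Sph ι, Bil (E ι))) :
    R.T K q (R.T J s f) = R.T J s (R.T (cj J s K) q f) := by
  apply ContinuousMap.ext
  intro x
  apply ContinuousLinearMap.ext
  intro v
  apply ContinuousLinearMap.ext
  intro w
  rw [T_vw hR, T_vw hR, T_vw hR, T_vw hR]
  have h1 : rotS (cj J s K) q (rotS J s x) = rotS J s (rotS K q x) := by
    apply Subtype.ext
    exact rot_cj J s K q x
  rw [h1, rot_cj, rot_cj]

theorem hasGen_T {J K : Gam ι} {s : ℝ} {W W' : C(Sph ι, Bil (E ι))}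
    (h : R.HasGen (cj J s K) W W') : R.HasGen K (R.T J s W) (R.T J s W') := by
  have h1 : HasDerivAt (fun q => R.T J s (R.T (cj J s K) q W)) (R.T J s W') 0 :=
    (R.T J s).hasFDerivAt.comp_hasDerivAt 0 h
  refine h1.congr_of_eventuallyEq (Filter.Eventually.of_forall fun q => ?_)
  exact T_conj hR J K s q W

/-- generators are Lie derivatives -/
theorem hasGen_lie {J : Gam ι} {f f' : C(Sph ι, Bil (E ι))} {u : E ι → Bil (E ι)}
    (hu : ∀ x : Sph ι, f x = u x) (hd : ∀ x ∈ Om ι, DifferentiableAt ℝ u x)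
    (h : R.HasGen J f f') (x : Sph ι) : f' x = lieX J.1 u x := by
  have hx : (x : E ι) ∈ Om ι := by
    intro h0
    have h1 : ‖(x : E ι)‖ = 1 := mem_sphere_zero_iff_norm.1 x.2
    rw [h0, norm_zero] at h1
    exact zero_ne_one h1
  apply ContinuousLinearMap.ext
  intro v
  apply ContinuousLinearMap.ext
  intro w
  have h1 : HasDerivAt (fun s => R.T J s f x v w) (f' x v w) 0 := by
    have e1 : HasDerivAt (fun s => R.T J s f x) (f' x) 0 :=
      (evS x).hasFDerivAt.comp_hasDerivAt 0 h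
    have e2 := (ContinuousLinearMap.apply ℝ (E ι →L[ℝ] ℝ) v).hasFDerivAt.comp_hasDerivAt 0 e1
    exact (ContinuousLinearMap.apply ℝ ℝ w).hasFDerivAt.comp_hasDerivAt 0 e2
  have hrot : ∀ z : E ι, HasDerivAt (fun s => rot J.1 s z) (J.1 z) 0 := by
    intro z
    have := hasDerivAt_rot J.1 0 z
    rw [rot_zero] at this
    exact this
  have h2 : HasDerivAt (fun s => u (rot J.1 s x)) (fderiv ℝ u x (J.1 x)) 0 := by
    have e1 : HasFDerivAt u (fderiv ℝ u x) (rot J.1 0 x) := by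
      rw [rot_zero]
      exact (hd x hx).hasFDerivAt
    exact e1.comp_hasDerivAt 0 (hrot x)
  have h3 : HasDerivAt (fun s => u (rot J.1 s x) (rot J.1 s v) (rot J.1 s w))
      (fderiv ℝ u x (J.1 x) v w + u x (J.1 v) w + u x v (J.1 w)) 0 := by
    have e1 := (h2.clm_apply (hrot v)).clm_apply (hrot w)
    simp only [rot_zero, ContinuousLinearMap.id_apply, _root_.add_apply] at e1
    exact e1
  have h4 : HasDerivAt (fun s => R.T J s f x v w)
      (fderiv ℝ u x (J.1 x) v w + u x (J.1 v) w + u x v (J.1 w)) 0 := by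
    refine h3.congr_of_eventuallyEq (Filter.Eventually.of_forall fun s => ?_)
    show R.T J s f x v w = _
    rw [T_vw hR, hu]
    rfl
  rw [lieX_apply]
  exact h1.unique h4

end Action

/-- symmetrisation -/
def symL (ι : Type) [Fintype ι] : Bil (E ι) →L[ℝ] Bil (E ι) :=
  (1 / 2 : ℝ) • (ContinuousLinearMap.id ℝ (Bil (E ι)) +
    ((ContinuousLinearMap.flipₗᵢ ℝ (E ι) (E ι) ℝ).toContinuousLinearEquiv :
      Bil (E ι) →L[ℝ] Bil (E ι)))

theorem symL_apply (g : Bil (E ι)) (v w : E ι) :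
    symL ι g v w = (1 / 2 : ℝ) * (g v w + g w v) := rfl

/-- symmetrisation of functions on the sphere -/
def SY (ι : Type) [Fintype ι] : C(Sph ι, Bil (E ι)) →L[ℝ] C(Sph ι, Bil (E ι)) :=
  (symL ι).compLeftContinuous ℝ (Sph ι)

theorem SY_apply (f : C(Sph ι, Bil (E ι))) (x : Sph ι) : SY ι f x = symL ι (f x) := rfl

theorem hasGen_SY {R : RotSys C(Sph ι, Bil (E ι)) (Gam ι) (ι × ι)} (hR : IsRotSys R)
    {J : Gam ι} {f f' : C(Sph ι, Bil (E ι))} (h : R.HasGen J f f') :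
    R.HasGen J (SY ι f) (SY ι f') := by
  have h1 : HasDerivAt (fun q => SY ι (R.T J q f)) (SY ι f') 0 :=
    (SY ι).hasFDerivAt.comp_hasDerivAt 0 h
  refine h1.congr_of_eventuallyEq (Filter.Eventually.of_forall fun q => ?_)
  apply ContinuousMap.ext
  intro x
  apply ContinuousLinearMap.ext
  intro v
  apply ContinuousLinearMap.ext
  intro w
  rw [T_vw hR, SY_apply, SY_apply, symL_apply, symL_apply, T_vw hR, T_vw hR]

theorem norm_coe_sph (x : Sph ι) : ‖(x : E ι)‖ = 1 := mem_sphere_zero_iff_norm.1 x.2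

theorem coe_sph_mem (x : Sph ι) : (x : E ι) ∈ Om ι := by
  intro h0
  have h1 := norm_coe_sph x
  rw [h0, norm_zero] at h1
  exact zero_ne_one h1

theorem exists_ext (g : E ι → Bil (E ι)) (hg : ContDiff ℝ ∞ g) (p : C(Sph ι, Bil (E ι)))
    (hp : ∀ x : Sph ι, p x = g x) : ∃ u : E ι → Bil (E ι), ContDiffOn ℝ ∞ u (Om ι) ∧ Homog u ∧
      (∀ x : Sph ι, SY ι p x = u x) ∧ (∀ x ∈ Om ι, ∀ v w, u x v w = u x w v) := by
  refine ⟨fun x => (‖x‖ ^ 2)⁻¹ • symL ι (g (‖x‖⁻¹ • x)), ?_, ?_, ?_, ?_⟩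
  · intro x hx
    apply ContDiffAt.contDiffWithinAt
    have h1 : ContDiffAt ℝ ∞ (fun x : E ι => ‖x‖) x := contDiffAt_norm ℝ hx
    have h2 : ContDiffAt ℝ ∞ (fun x : E ι => ‖x‖⁻¹) x := h1.inv (norm_ne_zero_iff.2 hx)
    have h3 : ContDiffAt ℝ ∞ (fun x : E ι => (‖x‖ ^ 2)⁻¹) x :=
      (h1.pow 2).inv (pow_ne_zero 2 (norm_ne_zero_iff.2 hx))
    have h4 : ContDiffAt ℝ ∞ (fun x : E ι => g (‖x‖⁻¹ • x)) x :=
      hg.contDiffAt.comp x (h2.smul contDiffAt_id)
    exact h3.smul ((symL ι).contDiff.contDiffAt.comp x h4)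
  · intro c hc x hx
    have h1 : ‖c • x‖ = c * ‖x‖ := by rw [norm_smul, Real.norm_of_nonneg hc.le]
    have h2 : ‖c • x‖⁻¹ • c • x = ‖x‖⁻¹ • x := by
      rw [h1, smul_smul]
      congr 1
      have := norm_ne_zero_iff.2 hx
      field_simp
    show (‖c • x‖ ^ 2)⁻¹ • symL ι (g (‖c • x‖⁻¹ • c • x)) = (c ^ 2)⁻¹ • _
    rw [h2, h1, smul_smul]
    congr 1
    rw [mul_pow, mul_inv]
  · intro x
    show _ = (‖(x : E ι)‖ ^ 2)⁻¹ • symL ι (g (‖(x : E ι)‖⁻¹ • x))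
    rw [norm_coe_sph, SY_apply, hp]
    simp
  · intro x _ v w
    show (‖x‖ ^ 2)⁻¹ * (symL ι (g (‖x‖⁻¹ • x)) v w) = (‖x‖ ^ 2)⁻¹ * (symL ι (g (‖x‖⁻¹ • x)) w v)
    rw [symL_apply, symL_apply, add_comm]

theorem isMetric_of {u : E ι → Bil (E ι)} (hs : ContDiffOn ℝ ∞ u (Om ι)) (hh : Homog u)
    (hsym : ∀ x ∈ Om ι, ∀ v w, u x v w = u x w v) (hnear : ∀ x : Sph ι, ‖u x - del ι‖ < 1) :
    IsMetricOn u (Om ι) where
  isOpen := isOpen_Om
  smooth := hs
  symm := hsym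
  pos := by
    intro x hx v hv
    have hn : 0 < ‖x‖ := norm_pos_iff.2 hx
    let y : Sph ι := ⟨‖x‖⁻¹ • x, by
      rw [mem_sphere_zero_iff_norm, norm_smul, norm_inv, norm_norm, inv_mul_cancel₀ hn.ne']⟩
    have h1 : u x = (‖x‖ ^ 2)⁻¹ • u y := by
      have h2 := hh ‖x‖ hn y (coe_sph_mem y)
      have h3 : ‖x‖ • (y : E ι) = x := by
        show ‖x‖ • ‖x‖⁻¹ • x = x
        rw [smul_smul, mul_inv_cancel₀ hn.ne', one_smul]
      rwa [h3] at h2
    have h4 : 0 < u y v v := by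
      have e1 : ‖(u y - del ι) v v‖ ≤ ‖u y - del ι‖ * ‖v‖ * ‖v‖ := (u y - del ι).le_opNorm₂ v v
      have e2 : (u y - del ι) v v = u y v v - ⟪v, v⟫ := rfl
      rw [e2, real_inner_self_eq_norm_sq, Real.norm_eq_abs] at e1
      have e3 := (abs_le.1 e1).1
      have e4 : 0 < ‖v‖ := norm_pos_iff.2 hv
      have e5 := hnear y
      nlinarith [mul_pos e4 e4]
    rw [h1]
    show 0 < (‖x‖ ^ 2)⁻¹ * u y v v
    positivity

/-- the nonlinearity -/
def NN (c : E ι × Bil (E ι) → (ι × ι → ι × ι → Bil (E ι)) →L[ℝ] Bil (E ι))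
    (Gf : E ι × Bil (E ι) × (ι × ι → Bil (E ι)) → Bil (E ι))
    (q : E ι × Bil (E ι) × (ι × ι → Bil (E ι)) × (ι × ι → ι × ι → Bil (E ι))) : Bil (E ι) :=
  (∑ a, q.2.2.2 a a) + c (q.1, q.2.1) q.2.2.2 + Gf (q.1, q.2.1, q.2.2.1)

theorem continuous_NN {c : E ι × Bil (E ι) → (ι × ι → ι × ι → Bil (E ι)) →L[ℝ] Bil (E ι)}
    {Gf : E ι × Bil (E ι) × (ι × ι → Bil (E ι)) → Bil (E ι)} (hc : Continuous c)
    (hG : Continuous Gf) : Continuous (NN c Gf) := by
  unfold NN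
  have h1 : Continuous fun q : E ι × Bil (E ι) × (ι × ι → Bil (E ι)) ×
      (ι × ι → ι × ι → Bil (E ι)) => ∑ a, q.2.2.2 a a :=
    continuous_finsetSum _ fun a _ => by fun_prop
  have h2 : Continuous fun q : E ι × Bil (E ι) × (ι × ι → Bil (E ι)) ×
      (ι × ι → ι × ι → Bil (E ι)) => c (q.1, q.2.1) q.2.2.2 :=
    (hc.comp (by fun_prop)).clm_apply (by fun_prop)
  have h3 : Continuous fun q : E ι × Bil (E ι) × (ι × ι → Bil (E ι)) ×
      (ι × ι → ι × ι → Bil (E ι)) => Gf (q.1, q.2.1, q.2.2.1) := hG.comp (by fun_prop)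
  exact (h1.add h2).add h3

end Pool.Agent.Helper25RF
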