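import Pool.Agent.Helper25_RF.Equiv

/-!
# Rotation equivariance of the nonlinearity: assembly (module EQUIV)
-/

noncomputable section

open scoped ContDiff Topology RealInnerProductSpace
set_option maxSynthPendingDepth 3
set_option linter.unusedSectionVars false
open Set

namespace Pool.Agent.Helper25RF

open Pool.Agent.RF

variable {ι : Type} [Fintype ι] [DecidableEq ι]

/-- the nonlinearity of a smooth field is the Ricci-DeTurck operator -/
theorem NN_smooth {R : RotSys C(Sph ι, Bil (E ι)) (Gam ι) (ι × ι)} (hR : IsRotSys R)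
    {c : E ι × Bil (E ι) → (ι × ι → ι × ι → Bil (E ι)) →L[ℝ] Bil (E ι)}
    {Gf : E ι × Bil (E ι) × (ι × ι → Bil (E ι)) → Bil (E ι)} {r C : ℝ} (hQ : IsQ ι c Gf r C)
    {u : E ι → Bil (E ι)} (hu : IsMetricOn u (Om ι)) (hh : Homog u)
    {f : C(Sph ι, Bil (E ι))} {fa : ι × ι → C(Sph ι, Bil (E ι))}
    {fab : ι × ι → ι × ι → C(Sph ι, Bil (E ι))} (hf : ∀ x : Sph ι, f x = u x)
    (hfa : ∀ a, R.HasGen (R.J a) f (fa a)) (hfab : ∀ a b, R.HasGen (R.J a) (fa b) (fab a b))
    (x : Sph ι) (hx : ‖u x - del ι‖ ≤ r) (v w : E ι) :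
    NN c Gf (x, f x, (fun a => fa a x), fun a b => fab a b x) v w = rdt u x v w := by
  have h1 : ∀ a (y : Sph ι), fa a y = lieX (Jst a) u y := by
    intro a y
    rw [← hR.J_eq a]
    exact hasGen_lie hR hf (fun z hz => diffAt_Om hu.smooth hz) (hfa a) y
  have h2 : ∀ a b (y : Sph ι), fab a b y = lieX (Jst a) (lieX (Jst b) u) y := by
    intro a b y
    rw [← hR.J_eq a]
    exact hasGen_lie hR (h1 b) (fun z hz => diffAt_Om (contDiffOn_lieX hu.smooth _) hz)
      (hfab a b) y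
  rw [hQ.2.2.2.2 u hu hh x (norm_coe_sph x) hx v w]
  unfold NN
  simp only [h1, h2, hf]

theorem norm_comp_rot (J : Gam ι) (s : ℝ) (g : Bil (E ι)) :
    ‖g.bilinearComp (rot J.1 s) (rot J.1 s)‖ ≤ ‖g‖ := by
  refine ContinuousLinearMap.opNorm_le_bound₂ _ (norm_nonneg g) fun v w => ?_
  show ‖g (rot J.1 s v) (rot J.1 s w)‖ ≤ _
  have := g.le_opNorm₂ (rot J.1 s v) (rot J.1 s w)
  rwa [norm_rot J.2.1, norm_rot J.2.1] at this

theorem fderiv_rotE (J : Gam ι) (s : ℝ) (y : E ι) :
    fderiv ℝ (rotE J s : E ι → E ι) y = rot J.1 s :=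
  (rot J.1 s).fderiv

theorem NN_equiv (hRR : RdtRotStatement)
    {R : RotSys C(Sph ι, Bil (E ι)) (Gam ι) (ι × ι)} (hR : IsRotSys R)
    {c : E ι × Bil (E ι) → (ι × ι → ι × ι → Bil (E ι)) →L[ℝ] Bil (E ι)}
    {Gf : E ι × Bil (E ι) × (ι × ι → Bil (E ι)) → Bil (E ι)} {r C : ℝ} (hQ : IsQ ι c Gf r C)
    {u : E ι → Bil (E ι)} (hu : IsMetricOn u (Om ι)) (hh : Homog u)
    {f : C(Sph ι, Bil (E ι))} {fa : ι × ι → C(Sph ι, Bil (E ι))}
    {fab : ι × ι → ι × ι → C(Sph ι, Bil (E ι))} (hf : ∀ x : Sph ι, f x = u x)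
    (hfa : ∀ a, R.HasGen (R.J a) f (fa a)) (hfab : ∀ a b, R.HasGen (R.J a) (fa b) (fab a b))
    (J : Gam ι) (s : ℝ) {fa' : ι × ι → C(Sph ι, Bil (E ι))}
    {fab' : ι × ι → ι × ι → C(Sph ι, Bil (E ι))}
    (hfa' : ∀ a, R.HasGen (R.J a) (R.T J s f) (fa' a))
    (hfab' : ∀ a b, R.HasGen (R.J a) (fa' b) (fab' a b))
    (x : Sph ι) (hx : ‖u (rotS J s x) - del ι‖ ≤ r) :
    NN c Gf (x, R.T J s f x, (fun a => fa' a x), fun a b => fab' a b x) =
      (NN c Gf (rotS J s x, f (rotS J s x), (fun a => fa a (rotS J s x)),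
        fun a b => fab a b (rotS J s x))).bilinearComp (rot J.1 s) (rot J.1 s) := by
  obtain ⟨hP, hrd⟩ := hRR ι u (rotE J s) hu
  have hp : ∀ y v w, pullb u (rotE J s) y v w = u (rot J.1 s y) (rot J.1 s v) (rot J.1 s w) := by
    intro y v w
    rw [pullb_apply, fderiv_rotE]
    rfl
  have hhP : Homog (pullb u (rotE J s)) := by
    intro k hk y hy
    apply ContinuousLinearMap.ext
    intro v
    apply ContinuousLinearMap.ext
    intro w
    have hy' : rot J.1 s y ∈ Om ι := by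
      intro h0
      apply hy
      have := norm_rot J.2.1 s y
      rw [h0, norm_zero] at this
      exact norm_eq_zero.1 this.symm
    rw [hp, map_smul, hh k hk _ hy']
    show (k ^ 2)⁻¹ * (u (rot J.1 s y) (rot J.1 s v) (rot J.1 s w)) =
      (k ^ 2)⁻¹ * (pullb u (rotE J s) y v w)
    rw [hp]
  have hfP : ∀ y : Sph ι, R.T J s f y = pullb u (rotE J s) y := by
    intro y
    apply ContinuousLinearMap.ext
    intro v
    apply ContinuousLinearMap.ext
    intro w
    rw [T_vw hR, hp, hf]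
    rfl
  have hxP : ‖pullb u (rotE J s) x - del ι‖ ≤ r := by
    have h1 : pullb u (rotE J s) x - del ι =
        (u (rotS J s x) - del ι).bilinearComp (rot J.1 s) (rot J.1 s) := by
      apply ContinuousLinearMap.ext
      intro v
      apply ContinuousLinearMap.ext
      intro w
      show pullb u (rotE J s) x v w - ⟪v, w⟫ =
        u (rotS J s x) (rot J.1 s v) (rot J.1 s w) - ⟪rot J.1 s v, rot J.1 s w⟫
      rw [hp]
      have h2 : ⟪rot J.1 s v, rot J.1 s w⟫ = ⟪v, w⟫ :=
        LinearIsometryEquiv.inner_map_map (rotE J s) v w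
      rw [h2]
      rfl
    rw [h1]
    exact (norm_comp_rot J s _).trans hx
  apply ContinuousLinearMap.ext
  intro v
  apply ContinuousLinearMap.ext
  intro w
  rw [NN_smooth hR hQ hP hhP hfP hfa' hfab' x hxP v w, hrd x (coe_sph_mem x) v w]
  show _ = NN c Gf (rotS J s x, f (rotS J s x), (fun a => fa a (rotS J s x)),
        fun a b => fab a b (rotS J s x)) (rot J.1 s v) (rot J.1 s w)
  rw [NN_smooth hR hQ hu hh hf hfa hfab (rotS J s x) hx]
  rfl

/-- the transformed generators -/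
theorem gens_T {R : RotSys C(Sph ι, Bil (E ι)) (Gam ι) (ι × ι)} (H : Heat R) (hR : IsRotSys R)
    (J : Gam ι) (s : ℝ)
    {f : C(Sph ι, Bil (E ι))} {fa : ι × ι → C(Sph ι, Bil (E ι))}
    {fab : ι × ι → ι × ι → C(Sph ι, Bil (E ι))}
    (hfa : ∀ a, R.HasGen (R.J a) f (fa a)) (hfab : ∀ a b, R.HasGen (R.J a) (fa b) (fab a b)) :
    (∀ a, R.HasGen (R.J a) (R.T J s f)
      (R.T J s (∑ b, R.c (cj J s (R.J a)) b • fa b))) ∧
    ∀ a b, R.HasGen (R.J a) (R.T J s (∑ d, R.c (cj J s (R.J b)) d • fa d))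
      (R.T J s (∑ e, R.c (cj J s (R.J a)) e • ∑ d, R.c (cj J s (R.J b)) d • fab e d)) := by
  constructor
  · intro a
    exact hasGen_T hR (hasGen_dir H hfa _)
  · intro a b
    apply hasGen_T hR
    apply hasGen_dir H (fa := fun e => ∑ d, R.c (cj J s (R.J b)) d • fab e d)
    intro e
    exact hasGen_sum _ fun d _ => hasGen_smul (hfab e d) _

theorem equivStatement (hRR : RdtRotStatement) : EquivStatement := by
  intro ι _ _ R H hR c Gf r C hQ hr w wa wab hwa hwab hsym hnear J s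
  obtain ⟨hg1, hg2⟩ := gens_T H hR J s hwa hwab
  have hNc : Continuous (NN c Gf) := continuous_NN hQ.1.continuous hQ.2.1.continuous
  let wa' : ι × ι → C(Sph ι, Bil (E ι)) := fun a => R.T J s (∑ b, R.c (cj J s (R.J a)) b • wa b)
  let wab' : ι × ι → ι × ι → C(Sph ι, Bil (E ι)) := fun a b =>
    R.T J s (∑ e, R.c (cj J s (R.J a)) e • ∑ d, R.c (cj J s (R.J b)) d • wab e d)
  have hcont : ∀ (f : C(Sph ι, Bil (E ι))) (fa : ι × ι → C(Sph ι, Bil (E ι)))
      (fab : ι × ι → ι × ι → C(Sph ι, Bil (E ι))),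
      Continuous fun x : Sph ι => NN c Gf (x, f x, (fun a => fa a x), fun a b => fab a b x) := by
    intro f fa fab
    apply hNc.comp
    exact continuous_subtype_val.prodMk (f.continuous.prodMk
      ((continuous_pi fun a => (fa a).continuous).prodMk
        (continuous_pi fun a => continuous_pi fun b => (fab a b).continuous)))
  let n : C(Sph ι, Bil (E ι)) := ⟨_, hcont w wa wab⟩
  let n' : C(Sph ι, Bil (E ι)) := ⟨_, hcont (R.T J s w) wa' wab'⟩
  refine ⟨wa', wab', n, n', hg1, hg2, fun x => rfl, fun x => rfl, ?_⟩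
  -- smooth approximations
  have happ : ∀ m : ℕ, ∃ (k : ℕ) (p : C(Sph ι, Bil (E ι))) (pa : ι × ι → C(Sph ι, Bil (E ι)))
      (pab : ι × ι → ι × ι → C(Sph ι, Bil (E ι))), p ∈ R.F k ∧
      (∀ a, R.HasGen (R.J a) p (pa a)) ∧ (∀ a b, R.HasGen (R.J a) (pa b) (pab a b)) ∧
      ‖p - w‖ < 1 / ((m : ℝ) + 1) ∧ (∀ a, ‖pa a - wa a‖ < 1 / ((m : ℝ) + 1)) ∧
      (∀ a b, ‖pab a b - wab a b‖ < 1 / ((m : ℝ) + 1)) := by
    intro m
    obtain ⟨k, p, pa, pab, h1, -, -, h2, h3, h4, h5, h6⟩ :=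
      H.approx w wa wab hwa hwab (1 / ((m : ℝ) + 1)) (by positivity)
    exact ⟨k, p, pa, pab, h1, h2, h3, h4, h5, h6⟩
  choose k p pa pab hF hpa hpab hn hna hnab using happ
  have htend : ∀ (F : ℕ → C(Sph ι, Bil (E ι))) (F0 : C(Sph ι, Bil (E ι))),
      (∀ m, ‖F m - F0‖ < 1 / ((m : ℝ) + 1)) → Filter.Tendsto F Filter.atTop (𝓝 F0) := by
    intro F F0 h
    rw [tendsto_iff_norm_sub_tendsto_zero]
    exact squeeze_zero (fun m => norm_nonneg _) (fun m => (h m).le)
      tendsto_one_div_add_atTop_nhds_zero_nat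
  have hSYw : SY ι w = w := by
    apply ContinuousMap.ext
    intro x
    apply ContinuousLinearMap.ext
    intro v
    apply ContinuousLinearMap.ext
    intro v'
    rw [SY_apply, symL_apply, hsym x v' v]
    ring
  have hSYwa : ∀ a, SY ι (wa a) = wa a := by
    intro a
    have h1 := hasGen_SY hR (hwa a)
    rw [hSYw] at h1
    exact hasGen_unique h1 (hwa a)
  have hSYwab : ∀ a b, SY ι (wab a b) = wab a b := by
    intro a b
    have h1 := hasGen_SY hR (hwab a b)
    rw [hSYwa] at h1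
    exact hasGen_unique h1 (hwab a b)
  have hP : Filter.Tendsto (fun m => SY ι (p m)) Filter.atTop (𝓝 w) := by
    have := ((SY ι).continuous.tendsto w).comp (htend p w hn)
    rwa [hSYw] at this
  have hPa : ∀ a, Filter.Tendsto (fun m => SY ι (pa m a)) Filter.atTop (𝓝 (wa a)) := by
    intro a
    have := ((SY ι).continuous.tendsto (wa a)).comp (htend (fun m => pa m a) (wa a)
      (fun m => hna m a))
    rwa [hSYwa] at this
  have hPab : ∀ a b, Filter.Tendsto (fun m => SY ι (pab m a b)) Filter.atTop (𝓝 (wab a b)) := by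
    intro a b
    have := ((SY ι).continuous.tendsto (wab a b)).comp (htend (fun m => pab m a b) (wab a b)
      (fun m => hnab m a b))
    rwa [hSYwab] at this
  apply ContinuousMap.ext
  intro x
  -- the identity for the approximations
  have hid : ∀ᶠ m in Filter.atTop,
      NN c Gf (x, R.T J s (SY ι (p m)) x,
        (fun a => R.T J s (∑ b, R.c (cj J s (R.J a)) b • SY ι (pa m b)) x),
        fun a b => R.T J s (∑ e, R.c (cj J s (R.J a)) e • ∑ d, R.c (cj J s (R.J b)) d •
          SY ι (pab m e d)) x) =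
      (NN c Gf (rotS J s x, SY ι (p m) (rotS J s x), (fun a => SY ι (pa m a) (rotS J s x)),
        fun a b => SY ι (pab m a b) (rotS J s x))).bilinearComp (rot J.1 s) (rot J.1 s) := by
    have e1 : ∀ᶠ m in Filter.atTop, ‖SY ι (p m) - w‖ < 1 - r := by
      have := tendsto_iff_norm_sub_tendsto_zero.1 hP
      exact this.eventually (gt_mem_nhds (by linarith))
    have e2 : ∀ᶠ m in Filter.atTop,
        ‖SY ι (p m) (rotS J s x) - w (rotS J s x)‖ < r - ‖w (rotS J s x) - del ι‖ := by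
      have h1 := ((evS (rotS J s x)).continuous.tendsto w).comp hP
      have := tendsto_iff_norm_sub_tendsto_zero.1 h1
      exact this.eventually (gt_mem_nhds (by linarith [hnear (rotS J s x)]))
    filter_upwards [e1, e2] with m h1 h2
    obtain ⟨g, hg, hpg⟩ := hR.F_smooth (k m) (p m) (hF m)
    obtain ⟨u, hus, huh, hup, husym⟩ := exists_ext g hg (p m) hpg
    have hu : IsMetricOn u (Om ι) := by
      apply isMetric_of hus huh husym
      intro y
      rw [← hup]
      have h3 : ‖SY ι (p m) y - w y‖ ≤ ‖SY ι (p m) - w‖ :=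
        (SY ι (p m) - w).norm_coe_le_norm y
      calc ‖SY ι (p m) y - del ι‖ = ‖(SY ι (p m) y - w y) + (w y - del ι)‖ := by
            congr 1; abel
        _ ≤ ‖SY ι (p m) y - w y‖ + ‖w y - del ι‖ := norm_add_le _ _
        _ < 1 := by linarith [hnear y]
    have hga : ∀ a, R.HasGen (R.J a) (SY ι (p m)) (SY ι (pa m a)) := fun a =>
      hasGen_SY hR (hpa m a)
    have hgab : ∀ a b, R.HasGen (R.J a) (SY ι (pa m b)) (SY ι (pab m a b)) := fun a b =>
      hasGen_SY hR (hpab m a b)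
    obtain ⟨hT1, hT2⟩ := gens_T H hR J s hga hgab
    refine NN_equiv hRR hR hQ hu huh hup hga hgab J s hT1 hT2 x ?_
    rw [← hup]
    calc ‖SY ι (p m) (rotS J s x) - del ι‖
        = ‖(SY ι (p m) (rotS J s x) - w (rotS J s x)) + (w (rotS J s x) - del ι)‖ := by
          congr 1; abel
      _ ≤ ‖SY ι (p m) (rotS J s x) - w (rotS J s x)‖ + ‖w (rotS J s x) - del ι‖ :=
          norm_add_le _ _
      _ ≤ r := by linarith
  -- limits
  have hev : ∀ (y : Sph ι) {F : ℕ → C(Sph ι, Bil (E ι))} {F0 : C(Sph ι, Bil (E ι))},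
      Filter.Tendsto F Filter.atTop (𝓝 F0) →
      Filter.Tendsto (fun m => F m y) Filter.atTop (𝓝 (F0 y)) := fun y _ F0 h =>
    ((evS y).continuous.tendsto F0).comp h
  have hTt : ∀ {F : ℕ → C(Sph ι, Bil (E ι))} {F0 : C(Sph ι, Bil (E ι))},
      Filter.Tendsto F Filter.atTop (𝓝 F0) →
      Filter.Tendsto (fun m => R.T J s (F m)) Filter.atTop (𝓝 (R.T J s F0)) := fun {_ F0} h =>
    ((R.T J s).continuous.tendsto F0).comp h
  have hL : Filter.Tendsto (fun m => NN c Gf (x, R.T J s (SY ι (p m)) x,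
        (fun a => R.T J s (∑ b, R.c (cj J s (R.J a)) b • SY ι (pa m b)) x),
        fun a b => R.T J s (∑ e, R.c (cj J s (R.J a)) e • ∑ d, R.c (cj J s (R.J b)) d •
          SY ι (pab m e d)) x)) Filter.atTop (𝓝 (n' x)) := by
    refine (hNc.tendsto _).comp ?_
    refine Filter.Tendsto.prodMk_nhds tendsto_const_nhds ?_
    refine Filter.Tendsto.prodMk_nhds (hev x (hTt hP)) ?_
    refine Filter.Tendsto.prodMk_nhds ?_ ?_
    · rw [tendsto_pi_nhds]
      intro a
      exact hev x (hTt (tendsto_finsetSum _ fun b _ => (hPa b).const_smul _))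
    · rw [tendsto_pi_nhds]
      intro a
      rw [tendsto_pi_nhds]
      intro b
      exact hev x (hTt (tendsto_finsetSum _ fun e _ => (tendsto_finsetSum _ fun d _ =>
        (hPab e d).const_smul _).const_smul _))
  have hRt : Filter.Tendsto (fun m => NN c Gf (rotS J s x, SY ι (p m) (rotS J s x),
        (fun a => SY ι (pa m a) (rotS J s x)),
        fun a b => SY ι (pab m a b) (rotS J s x))) Filter.atTop (𝓝 (n (rotS J s x))) := by
    refine (hNc.tendsto _).comp ?_
    refine Filter.Tendsto.prodMk_nhds tendsto_const_nhds ?_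
    refine Filter.Tendsto.prodMk_nhds (hev _ hP) ?_
    refine Filter.Tendsto.prodMk_nhds ?_ ?_
    · rw [tendsto_pi_nhds]
      intro a
      exact hev _ (hPa a)
    · rw [tendsto_pi_nhds]
      intro a
      rw [tendsto_pi_nhds]
      intro b
      exact hev _ (hPab a b)
  apply ContinuousLinearMap.ext
  intro v
  apply ContinuousLinearMap.ext
  intro v'
  have hap : ∀ (v v' : E ι) {F : ℕ → Bil (E ι)} {F0 : Bil (E ι)},
      Filter.Tendsto F Filter.atTop (𝓝 F0) →
      Filter.Tendsto (fun m => F m v v') Filter.atTop (𝓝 (F0 v v')) := by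
    intro v v' F F0 h
    have h1 : Continuous fun g : Bil (E ι) => g v v' := by fun_prop
    exact (h1.tendsto F0).comp h
  rw [T_vw hR]
  refine tendsto_nhds_unique (hap v v' hL) ((hap (rot J.1 s v) (rot J.1 s v') hRt).congr' ?_)
  filter_upwards [hid] with m hm
  rw [hm]
  rfl

end Pool.Agent.Helper25RF
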