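import Pool.Agent.Helper25_RF.Lie

/-!
# The Ricci-DeTurck operator in terms of rotations (module QSTR)
-/

noncomputable section

open scoped ContDiff Topology RealInnerProductSpace
set_option maxSynthPendingDepth 3
set_option linter.unusedSectionVars false
open Set

namespace Pool.Agent.Helper25RF

open Pool.Agent.RF

variable {ι : Type} [Fintype ι] [DecidableEq ι]

/-- the derivative as a linear map -/
def Qx (x : E ι) (g : Bil (E ι)) (L : ι × ι → Bil (E ι)) : E ι →L[ℝ] Bil (E ι) :=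
  ∑ k, (EuclideanSpace.proj k : E ι →L[ℝ] ℝ).smulRight (Pk k x g L)

theorem Qx_eq {u : E ι → Bil (E ι)} (hs : ContDiffOn ℝ ∞ u (Om ι)) (hh : Homog u)
    {x : E ι} (hx : x ∈ Om ι) (h1 : ‖x‖ = 1) :
    fderiv ℝ u x = Qx x (u x) (fun a => lieX (Jst a) u x) := by
  apply ContinuousLinearMap.ext
  intro z
  conv_lhs => rw [← sum_coord_smul_eb z, map_sum]
  unfold Qx
  rw [_root_.sum_apply]
  refine Finset.sum_congr rfl fun k _ => ?_
  rw [map_smul, fderiv_eb_unit hs hh hx h1]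
  rfl

/-- the lower order part of the Casimir operator -/
def Cas (x : E ι) (g : Bil (E ι)) (L : ι × ι → Bil (E ι)) : Bil (E ι) :=
  ∑ a, (Qx x g L (Jst a (Jst a x)) + adj (Jst a) (Qx x g L (Jst a x)) + adj (Jst a) (L a))
    - (6 : ℝ) • g

theorem sum_bilin {F : Type*} [AddCommGroup F] [Module ℝ F] (B : E ι → E ι → F)
    (ha : ∀ v v' w, B (v + v') w = B v w + B v' w) (hb : ∀ v w w', B v (w + w') = B v w + B v w')
    (hc : ∀ (c : ℝ) v w, B (c • v) w = c • B v w) (hd : ∀ (c : ℝ) v w, B v (c • w) = c • B v w)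
    (x : E ι) :
    ∑ a : ι × ι, B (Jst a x) (Jst a x) = ‖x‖ ^ 2 • ∑ k, B (eb k) (eb k) - B x x := by
  have hsub1 : ∀ v v' w, B (v - v') w = B v w - B v' w := by
    intro v v' w
    have h : v - v' = v + (-1 : ℝ) • v' := by module
    rw [h, ha, hc]
    module
  have hsub2 : ∀ v w w', B v (w - w') = B v w - B v w' := by
    intro v w w'
    have h : w - w' = w + (-1 : ℝ) • w' := by module
    rw [h, hb, hd]
    module
  have hs1 : ∀ (s : Finset ι) (f : ι → E ι) w, B (∑ i ∈ s, f i) w = ∑ i ∈ s, B (f i) w := by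
    intro s f w
    classical
    induction s using Finset.induction_on with
    | empty =>
      have := hc 0 0 w
      simpa using this
    | insert a s has ih => rw [Finset.sum_insert has, ha, ih, Finset.sum_insert has]
  have hs2 : ∀ (s : Finset ι) (f : ι → E ι) v, B v (∑ i ∈ s, f i) = ∑ i ∈ s, B v (f i) := by
    intro s f v
    classical
    induction s using Finset.induction_on with
    | empty =>
      have := hd 0 v 0
      simpa using this
    | insert a s has ih => rw [Finset.sum_insert has, hb, ih, Finset.sum_insert has]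
  have hBx : B x x = ∑ k, ∑ i, (x k * x i) • B (eb k) (eb i) := by
    conv_lhs => rw [← sum_coord_smul_eb x, hs1]
    refine Finset.sum_congr rfl fun k _ => ?_
    rw [hs2]
    refine Finset.sum_congr rfl fun i _ => ?_
    rw [hc, hd, smul_smul]
  have hhalf : (√2)⁻¹ * (√2)⁻¹ = (1 / 2 : ℝ) := by
    rw [← mul_inv, Real.mul_self_sqrt (by norm_num)]
    norm_num
  have h1 : ∀ a : ι × ι, B (Jst a x) (Jst a x) = (1 / 2 : ℝ) •
      ((x a.2 * x a.2) • B (eb a.1) (eb a.1) - (x a.2 * x a.1) • B (eb a.1) (eb a.2)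
        - (x a.1 * x a.2) • B (eb a.2) (eb a.1) + (x a.1 * x a.1) • B (eb a.2) (eb a.2)) := by
    intro a
    rw [Jst_apply, hc, hd, smul_smul, hhalf]
    simp only [hsub1, hsub2, hc, hd]
    module
  rw [Finset.sum_congr rfl fun a _ => h1 a, ← Finset.smul_sum, Finset.sum_add_distrib,
    Finset.sum_sub_distrib, Finset.sum_sub_distrib]
  have e1 : ∑ a : ι × ι, (x a.2 * x a.2) • B (eb a.1) (eb a.1) =
      ‖x‖ ^ 2 • ∑ k, B (eb k) (eb k) := by
    rw [Fintype.sum_prod_type, Finset.smul_sum]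
    refine Finset.sum_congr rfl fun k _ => ?_
    show ∑ y : ι, (x y * x y) • B (eb k) (eb k) = ‖x‖ ^ 2 • B (eb k) (eb k)
    rw [← Finset.sum_smul, sum_sq]
  have e4 : ∑ a : ι × ι, (x a.1 * x a.1) • B (eb a.2) (eb a.2) =
      ‖x‖ ^ 2 • ∑ k, B (eb k) (eb k) := by
    rw [Fintype.sum_prod_type]
    have : ∀ k : ι, ∑ y : ι, (x k * x k) • B (eb y) (eb y) =
        (x k * x k) • ∑ y : ι, B (eb y) (eb y) := fun k => (Finset.smul_sum).symm
    rw [Finset.sum_congr rfl fun k _ => this k, ← Finset.sum_smul, sum_sq]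
  have e2 : ∑ a : ι × ι, (x a.2 * x a.1) • B (eb a.1) (eb a.2) = B x x := by
    rw [hBx, Fintype.sum_prod_type]
    refine Finset.sum_congr rfl fun k _ => Finset.sum_congr rfl fun i _ => ?_
    rw [mul_comm]
  have e3 : ∑ a : ι × ι, (x a.1 * x a.2) • B (eb a.2) (eb a.1) = B x x := by
    rw [hBx, Fintype.sum_prod_type, Finset.sum_comm]
    refine Finset.sum_congr rfl fun k _ => Finset.sum_congr rfl fun i _ => ?_
    rw [mul_comm]
  rw [e1, e2, e3, e4]
  module

theorem casimir_eq {u : E ι → Bil (E ι)} (hs : ContDiffOn ℝ ∞ u (Om ι)) (hh : Homog u)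
    {x : E ι} (hx : x ∈ Om ι) (h1 : ‖x‖ = 1) :
    ∑ a, lieX (Jst a) (lieX (Jst a) u) x =
      ∑ k, fderiv ℝ (fderiv ℝ u) x (eb k) (eb k) + Cas x (u x) (fun a => lieX (Jst a) u x) := by
  have h2 := sum_bilin (fun v w => fderiv ℝ (fderiv ℝ u) x v w) (by intros; simp) (by intros; simp)
    (by intros; simp) (by intros; simp) x
  rw [h1, one_pow, one_smul, euler2 hs hh hx] at h2
  have h3 : ∀ a, lieX (Jst a) (lieX (Jst a) u) x = fderiv ℝ (fderiv ℝ u) x (Jst a x) (Jst a x) +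
      (Qx x (u x) (fun a => lieX (Jst a) u x) (Jst a (Jst a x))
        + adj (Jst a) (Qx x (u x) (fun a => lieX (Jst a) u x) (Jst a x))
        + adj (Jst a) (lieX (Jst a) u x)) := by
    intro a
    rw [lieX_lieX hs _ hx, ← Qx_eq hs hh hx h1]
    abel
  rw [Finset.sum_congr rfl fun a _ => h3 a, Finset.sum_add_distrib, h2]
  unfold Cas
  abel

/-- the second order part in terms of iterated Lie derivatives -/
theorem Skl_split (l k : ι) (x : E ι) (g : Bil (E ι)) (L : ι × ι → Bil (E ι))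
    (M : ι × ι → ι × ι → Bil (E ι)) :
    Skl l k x g L M = Skl l k x g L 0 + (2 : ℝ) • ∑ i, ∑ j, (x i * x j) • M (l, j) (k, i) := by
  have h1 : ∀ i, Pk l x (L (k, i)) (fun a => M a (k, i)) =
      Pk l x (L (k, i)) (fun a => (0 : ι × ι → ι × ι → Bil (E ι)) a (k, i))
        + (√2) • ∑ j, x j • M (l, j) (k, i) := by
    intro i
    unfold Pk
    have h2 : ∑ j, x j • (M (l, j) (k, i) - adj (Jst (l, j)) (L (k, i))) =
        ∑ j, x j • ((0 : ι × ι → ι × ι → Bil (E ι)) (l, j) (k, i)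
          - adj (Jst (l, j)) (L (k, i))) + ∑ j, x j • M (l, j) (k, i) := by
      rw [← Finset.sum_add_distrib]
      refine Finset.sum_congr rfl fun j _ => ?_
      simp only [Pi.zero_apply]
      module
    rw [h2]
    module
  have h3 : ∀ i, ((eb l : E ι) i • (L (k, i) - adj (Jst (k, i)) g)
      + x i • (Pk l x (L (k, i)) (fun a => M a (k, i)) - adj (Jst (k, i)) (Pk l x g L))) =
      ((eb l : E ι) i • (L (k, i) - adj (Jst (k, i)) g)
      + x i • (Pk l x (L (k, i)) (fun a => (0 : ι × ι → ι × ι → Bil (E ι)) a (k, i))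
        - adj (Jst (k, i)) (Pk l x g L))) + (√2) • ∑ j, (x i * x j) • M (l, j) (k, i) := by
    intro i
    rw [h1 i]
    have h4 : ∑ j, (x i * x j) • M (l, j) (k, i) = x i • ∑ j, x j • M (l, j) (k, i) := by
      rw [Finset.smul_sum]
      refine Finset.sum_congr rfl fun j _ => ?_
      rw [smul_smul]
    rw [h4]
    module
  unfold Skl
  rw [Finset.sum_congr rfl fun i _ => h3 i, Finset.sum_add_distrib, ← Finset.smul_sum, smul_add,
    smul_smul, Real.mul_self_sqrt (by norm_num)]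
  abel

/-! ### smoothness -/

theorem contDiff_Pk (k : ι) : ContDiff ℝ ∞
    (fun q : E ι × Bil (E ι) × (ι × ι → Bil (E ι)) => Pk k q.1 q.2.1 q.2.2) := by
  unfold Pk
  have hc : ∀ i, ContDiff ℝ ∞ (fun q : E ι × Bil (E ι) × (ι × ι → Bil (E ι)) => q.1 i) := fun i =>
    (EuclideanSpace.proj i : E ι →L[ℝ] ℝ).contDiff.comp contDiff_fst
  have hL : ∀ a, ContDiff ℝ ∞ (fun q : E ι × Bil (E ι) × (ι × ι → Bil (E ι)) => q.2.2 a) := fun a =>
    (ContinuousLinearMap.proj (R := ℝ) (φ := fun _ : ι × ι => Bil (E ι)) a).contDiff.comp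
      (contDiff_snd.comp contDiff_snd)
  have hg : ContDiff ℝ ∞ (fun q : E ι × Bil (E ι) × (ι × ι → Bil (E ι)) => q.2.1) :=
    contDiff_fst.comp contDiff_snd
  refine ContDiff.sub (ContDiff.const_smul _ (ContDiff.sum fun i _ => ?_)) ?_
  · exact (hc i).smul ((hL _).sub ((adj _).contDiff.comp hg))
  · exact (contDiff_const.mul (hc k)).smul hg

theorem contDiff_Qx : ContDiff ℝ ∞
    (fun q : E ι × Bil (E ι) × (ι × ι → Bil (E ι)) => Qx q.1 q.2.1 q.2.2) := by
  unfold Qx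
  refine ContDiff.sum fun k _ => ?_
  exact ((ContinuousLinearMap.smulRightL ℝ (E ι) (Bil (E ι)))
    (EuclideanSpace.proj k : E ι →L[ℝ] ℝ)).contDiff.comp (contDiff_Pk k)

theorem contDiff_Cas : ContDiff ℝ ∞
    (fun q : E ι × Bil (E ι) × (ι × ι → Bil (E ι)) => Cas q.1 q.2.1 q.2.2) := by
  unfold Cas
  have hL : ∀ a, ContDiff ℝ ∞ (fun q : E ι × Bil (E ι) × (ι × ι → Bil (E ι)) => q.2.2 a) := fun a =>
    (ContinuousLinearMap.proj (R := ℝ) (φ := fun _ : ι × ι => Bil (E ι)) a).contDiff.comp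
      (contDiff_snd.comp contDiff_snd)
  have hg : ContDiff ℝ ∞ (fun q : E ι × Bil (E ι) × (ι × ι → Bil (E ι)) => q.2.1) :=
    contDiff_fst.comp contDiff_snd
  have hJ : ∀ a, ContDiff ℝ ∞ (fun q : E ι × Bil (E ι) × (ι × ι → Bil (E ι)) => Jst a q.1) :=
    fun a => (Jst a : E ι →L[ℝ] E ι).contDiff.comp contDiff_fst
  have hJJ : ∀ a, ContDiff ℝ ∞ (fun q : E ι × Bil (E ι) × (ι × ι → Bil (E ι)) =>
      Jst a (Jst a q.1)) := fun a => (Jst a : E ι →L[ℝ] E ι).contDiff.comp (hJ a)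
  refine ContDiff.sub (ContDiff.sum fun a _ => ?_) (hg.const_smul _)
  exact ((contDiff_Qx.clm_apply (hJJ a)).add ((adj _).contDiff.comp
    (contDiff_Qx.clm_apply (hJ a)))).add ((adj _).contDiff.comp (hL a))

theorem contDiff_coord (i : ι) :
    ContDiff ℝ ∞ (fun q : E ι × Bil (E ι) × (ι × ι → Bil (E ι)) => q.1 i) :=
  (EuclideanSpace.proj i : E ι →L[ℝ] ℝ).contDiff.comp contDiff_fst

theorem contDiff_L (a : ι × ι) :
    ContDiff ℝ ∞ (fun q : E ι × Bil (E ι) × (ι × ι → Bil (E ι)) => q.2.2 a) :=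
  (ContinuousLinearMap.proj (R := ℝ) (φ := fun _ : ι × ι => Bil (E ι)) a).contDiff.comp
    (contDiff_snd.comp contDiff_snd)

theorem contDiff_g :
    ContDiff ℝ ∞ (fun q : E ι × Bil (E ι) × (ι × ι → Bil (E ι)) => q.2.1) :=
  contDiff_fst.comp contDiff_snd

/-- `Pk` without first derivatives -/
def Pk0 (k : ι) (x : E ι) (g : Bil (E ι)) : Bil (E ι) :=
  (√2) • ∑ i, x i • (0 - adj (Jst (k, i)) g) - (2 * x k) • g

theorem Pk0_eq (k : ι) (x : E ι) (g : Bil (E ι)) : Pk k x g (fun _ => 0) = Pk0 k x g := rfl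

theorem contDiff_P0 (l k i : ι) : ContDiff ℝ ∞
    (fun q : E ι × Bil (E ι) × (ι × ι → Bil (E ι)) => Pk0 l q.1 (q.2.2 (k, i))) := by
  unfold Pk0
  have t1 : ∀ j, ContDiff ℝ ∞ (fun q : E ι × Bil (E ι) × (ι × ι → Bil (E ι)) =>
      0 - adj (Jst (l, j)) (q.2.2 (k, i))) := fun j =>
    contDiff_const.sub ((adj _).contDiff.comp (contDiff_L (k, i)))
  have t2 : ContDiff ℝ ∞ (fun q : E ι × Bil (E ι) × (ι × ι → Bil (E ι)) =>
      ∑ j, q.1 j • (0 - adj (Jst (l, j)) (q.2.2 (k, i)))) :=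
    ContDiff.sum fun j _ => (contDiff_coord j).smul (t1 j)
  have t3 : ContDiff ℝ ∞ (fun q : E ι × Bil (E ι) × (ι × ι → Bil (E ι)) =>
      (2 * q.1 l) • q.2.2 (k, i)) := (contDiff_const.mul (contDiff_coord l)).smul (contDiff_L _)
  exact (t2.const_smul (√2)).sub t3

/-- the summand in `Skl` -/
def sm (l k i : ι) (x : E ι) (g : Bil (E ι)) (L : ι × ι → Bil (E ι)) : Bil (E ι) :=
  (eb l : E ι) i • (L (k, i) - adj (Jst (k, i)) g)
      + x i • (Pk0 l x (L (k, i)) - adj (Jst (k, i)) (Pk l x g L))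

theorem contDiff_sm (l k i : ι) : ContDiff ℝ ∞
    (fun q : E ι × Bil (E ι) × (ι × ι → Bil (E ι)) => sm l k i q.1 q.2.1 q.2.2) := by
  unfold sm
  have t1 : ContDiff ℝ ∞ (fun q : E ι × Bil (E ι) × (ι × ι → Bil (E ι)) =>
      (eb l : E ι) i • (q.2.2 (k, i) - adj (Jst (k, i)) q.2.1)) :=
    ((contDiff_L _).sub ((adj _).contDiff.comp contDiff_g)).const_smul _
  have t2 : ContDiff ℝ ∞ (fun q : E ι × Bil (E ι) × (ι × ι → Bil (E ι)) =>
      adj (Jst (k, i)) (Pk l q.1 q.2.1 q.2.2)) := (adj _).contDiff.comp (contDiff_Pk l)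
  have t3 : ContDiff ℝ ∞ (fun q : E ι × Bil (E ι) × (ι × ι → Bil (E ι)) =>
      q.1 i • (Pk0 l q.1 (q.2.2 (k, i)) - adj (Jst (k, i)) (Pk l q.1 q.2.1 q.2.2))) :=
    (contDiff_coord i).smul ((contDiff_P0 l k i).sub t2)
  exact t1.add t3

theorem Skl0_eq (l k : ι) (x : E ι) (g : Bil (E ι)) (L : ι × ι → Bil (E ι)) :
    Skl l k x g L 0 = (-((2 * x l) • Pk k x g L) + (√2) • ∑ i, sm l k i x g L)
      - ((2 * (eb l : E ι) k) • g + (2 * x k) • Pk l x g L) := rfl

theorem contDiff_Skl0 (l k : ι) : ContDiff ℝ ∞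
    (fun q : E ι × Bil (E ι) × (ι × ι → Bil (E ι)) => Skl l k q.1 q.2.1 q.2.2 0) := by
  have h : (fun q : E ι × Bil (E ι) × (ι × ι → Bil (E ι)) => Skl l k q.1 q.2.1 q.2.2 0) =
      fun q => (-((2 * q.1 l) • Pk k q.1 q.2.1 q.2.2) + (√2) • ∑ i, sm l k i q.1 q.2.1 q.2.2)
      - ((2 * (eb l : E ι) k) • q.2.1 + (2 * q.1 k) • Pk l q.1 q.2.1 q.2.2) := by
    funext q
    exact Skl0_eq l k q.1 q.2.1 q.2.2
  rw [h]
  have t1 : ContDiff ℝ ∞ (fun q : E ι × Bil (E ι) × (ι × ι → Bil (E ι)) =>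
      (2 * q.1 l) • Pk k q.1 q.2.1 q.2.2) :=
    (contDiff_const.mul (contDiff_coord l)).smul (contDiff_Pk k)
  have t2 : ContDiff ℝ ∞ (fun q : E ι × Bil (E ι) × (ι × ι → Bil (E ι)) =>
      ∑ i, sm l k i q.1 q.2.1 q.2.2) := ContDiff.sum fun i _ => contDiff_sm l k i
  have t3 : ContDiff ℝ ∞ (fun q : E ι × Bil (E ι) × (ι × ι → Bil (E ι)) =>
      (2 * (eb l : E ι) k) • q.2.1) := contDiff_g.const_smul _
  have t4 : ContDiff ℝ ∞ (fun q : E ι × Bil (E ι) × (ι × ι → Bil (E ι)) =>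
      (2 * q.1 k) • Pk l q.1 q.2.1 q.2.2) :=
    (contDiff_const.mul (contDiff_coord k)).smul (contDiff_Pk l)
  exact (t1.neg.add (t2.const_smul (√2))).sub (t3.add t4)

/-! ### inverse metrics and cut-offs -/

theorem inv_of_near (g : Bil (E ι)) (h : ‖g - del ι‖ < 1) :
    ContinuousLinearMap.IsInvertible (g : E ι →L[ℝ] (E ι →L[ℝ] ℝ)) := by
  apply isInvertible_of_pos
  intro v hv
  have h1 : ‖(g - del ι) v v‖ ≤ ‖g - del ι‖ * ‖v‖ * ‖v‖ := (g - del ι).le_opNorm₂ v v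
  have h2 : (g - del ι) v v = g v v - ⟪v, v⟫ := rfl
  rw [h2, real_inner_self_eq_norm_sq, Real.norm_eq_abs] at h1
  have h3 := (abs_le.1 h1).1
  have h4 : 0 < ‖v‖ := norm_pos_iff.2 hv
  nlinarith [mul_pos h4 h4]

theorem ginv_del (k l : ι) : ginv (del ι) k l = if k = l then 1 else 0 := by
  have h1 : (del ι) (eb k) = (EuclideanSpace.proj k : E ι →L[ℝ] ℝ) := by
    apply ContinuousLinearMap.ext
    intro z
    exact inner_eb' z k
  have h2 : (del ι : E ι →L[ℝ] (E ι →L[ℝ] ℝ)).inverse (EuclideanSpace.proj k) = eb k := by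
    rw [← h1]
    exact (inv_of_near (del ι) (by simp)).inverse_apply_self (eb k)
  unfold ginv
  rw [h2]
  show (EuclideanSpace.single k (1 : ℝ)) l = _
  rw [PiLp.single_apply]
  simp only [eq_comm]

/-- cut-off in the metric -/
def chi2 (ι : Type) [Fintype ι] : ContDiffBump (del ι) := ⟨1 / 4, 1 / 2, by norm_num, by norm_num⟩

/-- cut-off in the point -/
def chi0 (ι : Type) [Fintype ι] : ContDiffBump (0 : E ι) := ⟨1 / 4, 1 / 2, by norm_num, by norm_num⟩

def th (k l : ι) (g : Bil (E ι)) : ℝ := chi2 ι g * (ginv g k l - ginv (del ι) k l)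

theorem contDiff_th (k l : ι) : ContDiff ℝ ∞ (th k l : Bil (E ι) → ℝ) := by
  rw [contDiff_iff_contDiffAt]
  intro g
  by_cases h : ‖g - del ι‖ < 1
  · have h1 : ContDiffAt ℝ ∞ (fun g : Bil (E ι) => ginv g k l) g := by
      unfold ginv
      have h2 : ContDiffAt ℝ ∞ (fun g : Bil (E ι) => g.inverse (EuclideanSpace.proj k)) g :=
        ((inv_of_near g h).contDiffAt_map_inverse).clm_apply contDiffAt_const
      exact (EuclideanSpace.proj l : E ι →L[ℝ] ℝ).contDiff.contDiffAt.comp g h2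
    exact ((chi2 ι).contDiff.contDiffAt).mul (h1.sub contDiffAt_const)
  · have h1 : th k l =ᶠ[𝓝 g] fun _ => (0 : ℝ) := by
      have h2 : {g : Bil (E ι) | 1 / 2 < ‖g - del ι‖} ∈ 𝓝 g := by
        apply IsOpen.mem_nhds
        · exact isOpen_lt continuous_const (by fun_prop)
        · show 1 / 2 < ‖g - del ι‖
          linarith [not_lt.1 h]
      filter_upwards [h2] with g' hg'
      unfold th
      rw [(chi2 ι).zero_of_le_dist (by rw [dist_eq_norm]; exact (le_of_lt hg')), zero_mul]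
    exact contDiffAt_const.congr_of_eventuallyEq h1

theorem chi2_one {g : Bil (E ι)} (h : ‖g - del ι‖ ≤ 1 / 4) : chi2 ι g = 1 :=
  (chi2 ι).one_of_mem_closedBall (by rw [mem_closedBall_iff_norm]; exact h)

end Pool.Agent.Helper25RF
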