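import Pool.Agent.Helper25_RF.Qstr

/-!
# The Ricci-DeTurck operator in terms of rotations: assembly (module QSTR)
-/

noncomputable section

open scoped ContDiff Topology RealInnerProductSpace
set_option maxSynthPendingDepth 3
set_option linter.unusedSectionVars false
open Set

namespace Pool.Agent.Helper25RF

open Pool.Agent.RF

variable {ι : Type} [Fintype ι] [DecidableEq ι]

/-- evaluation at a pair of indices -/
def cc (a b : ι × ι) : (ι × ι → ι × ι → Bil (E ι)) →L[ℝ] Bil (E ι) :=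
  (ContinuousLinearMap.proj (R := ℝ) (φ := fun _ : ι × ι => Bil (E ι)) b).comp
    (ContinuousLinearMap.proj (R := ℝ) (φ := fun _ : ι × ι => ι × ι → Bil (E ι)) a)

theorem cc_apply (a b : ι × ι) (M : ι × ι → ι × ι → Bil (E ι)) : cc a b M = M a b := rfl

/-- the coefficient of the second order part -/
def cF (q : E ι × Bil (E ι)) : (ι × ι → ι × ι → Bil (E ι)) →L[ℝ] Bil (E ι) :=
  ∑ k, ∑ l, (2 * th k l q.2) • ∑ i, ∑ j, (q.1 i * q.1 j) • cc (k, j) (l, i)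

theorem contDiff_cF : ContDiff ℝ ∞ (cF : E ι × Bil (E ι) → _) := by
  unfold cF
  have hc : ∀ i, ContDiff ℝ ∞ (fun q : E ι × Bil (E ι) => q.1 i) := fun i =>
    (EuclideanSpace.proj i : E ι →L[ℝ] ℝ).contDiff.comp contDiff_fst
  have ht : ∀ k l, ContDiff ℝ ∞ (fun q : E ι × Bil (E ι) => 2 * th k l q.2) := fun k l =>
    contDiff_const.mul ((contDiff_th k l).comp contDiff_snd)
  have hs : ∀ k l, ContDiff ℝ ∞ (fun q : E ι × Bil (E ι) =>
      ∑ i, ∑ j, (q.1 i * q.1 j) • (cc (k, j) (l, i) :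
        (ι × ι → ι × ι → Bil (E ι)) →L[ℝ] Bil (E ι))) := fun k l =>
    ContDiff.sum fun i _ => ContDiff.sum fun j _ => ((hc i).mul (hc j)).smul contDiff_const
  exact ContDiff.sum fun k _ => ContDiff.sum fun l _ => (ht k l).smul (hs k l)

theorem th_bound (k l : ι) : ∃ C : ℝ, 0 ≤ C ∧ ∀ (g : Bil (E ι)), ‖g - del ι‖ ≤ 1 / 4 →
    |th k l g| ≤ C * ‖g - del ι‖ := by
  have hK : IsCompact (Metric.closedBall (del ι) (1 / 4)) := isCompact_closedBall _ _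
  have hcv : Convex ℝ (Metric.closedBall (del ι) (1 / 4)) := convex_closedBall _ _
  have hcont : Continuous (fderiv ℝ (th k l : Bil (E ι) → ℝ)) :=
    (contDiff_th k l).continuous_fderiv (by simp)
  obtain ⟨C, hC⟩ := hK.bddAbove_image (f := fun q : Bil (E ι) => ‖fderiv ℝ (th k l) q‖)
    hcont.norm.continuousOn
  refine ⟨|C|, abs_nonneg C, fun g hg => ?_⟩
  have h1 : g ∈ Metric.closedBall (del ι) (1 / 4) := by
    rw [mem_closedBall_iff_norm]; exact hg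
  have h2 : del ι ∈ Metric.closedBall (del ι) (1 / 4) :=
    Metric.mem_closedBall_self (by norm_num)
  have h3 := hcv.norm_image_sub_le_of_norm_fderiv_le
    (fun q _ => (contDiff_th k l).contDiffAt.differentiableAt (by simp))
    (fun q hq => (hC (mem_image_of_mem _ hq)).trans (le_abs_self C)) h2 h1
  have h4 : th k l (del ι) = 0 := by
    unfold th
    rw [sub_self, mul_zero]
  rwa [h4, sub_zero, Real.norm_eq_abs] at h3

theorem norm_cc_sum (x : E ι) (hx : ‖x‖ = 1) (k l : ι) :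
    ‖∑ i, ∑ j, (x i * x j) • (cc (k, j) (l, i) :
        (ι × ι → ι × ι → Bil (E ι)) →L[ℝ] Bil (E ι))‖ ≤
    ∑ i, ∑ j, ‖(cc (k, j) (l, i) : (ι × ι → ι × ι → Bil (E ι)) →L[ℝ] Bil (E ι))‖ := by
  have hxi : ∀ i, |x i| ≤ 1 := by
    intro i
    rw [← hx]
    exact PiLp.norm_apply_le x i
  refine (norm_sum_le _ _).trans (Finset.sum_le_sum fun i _ => ?_)
  refine (norm_sum_le _ _).trans (Finset.sum_le_sum fun j _ => ?_)
  rw [norm_smul, Real.norm_eq_abs, abs_mul]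
  have h1 : |x i| * |x j| ≤ 1 := mul_le_one₀ (hxi i) (abs_nonneg _) (hxi j)
  calc _ ≤ 1 * ‖_‖ := mul_le_mul_of_nonneg_right h1 (norm_nonneg _)
    _ = _ := one_mul _

theorem cF_bound : ∃ C : ℝ, ∀ (x : E ι) (g : Bil (E ι)), ‖x‖ = 1 → ‖g - del ι‖ ≤ 1 / 4 →
    ‖cF (x, g)‖ ≤ C * ‖g - del ι‖ := by
  choose C hC0 hC using fun (k l : ι) => th_bound k l
  refine ⟨∑ k, ∑ l, 2 * C k l * ∑ i, ∑ j,
    ‖(cc (k, j) (l, i) : (ι × ι → ι × ι → Bil (E ι)) →L[ℝ] Bil (E ι))‖, fun x g hx hg => ?_⟩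
  rw [Finset.sum_mul]
  unfold cF
  refine (norm_sum_le _ _).trans (Finset.sum_le_sum fun k _ => ?_)
  rw [Finset.sum_mul]
  refine (norm_sum_le _ _).trans (Finset.sum_le_sum fun l _ => ?_)
  rw [norm_smul, Real.norm_eq_abs, abs_mul, abs_two]
  have h1 := hC k l g hg
  have h2 := norm_cc_sum x hx k l
  calc 2 * |th k l g| * _ ≤ (2 * (C k l * ‖g - del ι‖)) * _ :=
        mul_le_mul (by linarith) h2 (norm_nonneg _)
          (mul_nonneg (by norm_num) (mul_nonneg (hC0 k l) (norm_nonneg _)))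
    _ = _ := by ring

/-- the cut-off zero order term -/
def FPhi (Φ : E ι × Bil (E ι) × (E ι →L[ℝ] Bil (E ι)) → Bil (E ι))
    (q : E ι × Bil (E ι) × (ι × ι → Bil (E ι))) : Bil (E ι) :=
  ((1 - chi0 ι q.1) * chi2 ι q.2.1) • Φ (q.1, q.2.1, Qx q.1 q.2.1 q.2.2)

/-- a neighbourhood of the round metric -/
def WW (ι : Type) [Fintype ι] : Set (E ι × Bil (E ι) × (E ι →L[ℝ] Bil (E ι))) :=
  {p | p.1 ≠ 0 ∧ ‖p.2.1 - del ι‖ < 1}

theorem isOpen_WW : IsOpen (WW ι) := by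
  apply IsOpen.and
  · exact isOpen_ne_fun continuous_fst continuous_const
  · exact isOpen_lt ((continuous_fst.comp continuous_snd).sub continuous_const).norm
      continuous_const

theorem contDiffAt_Phi {Φ : E ι × Bil (E ι) × (E ι →L[ℝ] Bil (E ι)) → Bil (E ι)}
    (hΦ : ContDiffOn ℝ ∞ Φ {q | q.1 ≠ 0 ∧ q.2.1.IsInvertible})
    (p : E ι × Bil (E ι) × (E ι →L[ℝ] Bil (E ι))) (hp : p ∈ WW ι) : ContDiffAt ℝ ∞ Φ p := by
  have h1 : ContDiffOn ℝ ∞ Φ (WW ι) := hΦ.mono fun p hp => ⟨hp.1, inv_of_near _ hp.2⟩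
  exact (h1 p hp).contDiffAt (isOpen_WW.mem_nhds hp)

theorem contDiff_in : ContDiff ℝ ∞ (fun q : E ι × Bil (E ι) × (ι × ι → Bil (E ι)) =>
    ((q.1, q.2.1, Qx q.1 q.2.1 q.2.2) : E ι × Bil (E ι) × (E ι →L[ℝ] Bil (E ι)))) :=
  contDiff_fst.prodMk (contDiff_g.prodMk contDiff_Qx)

theorem contDiff_cut : ContDiff ℝ ∞ (fun q : E ι × Bil (E ι) × (ι × ι → Bil (E ι)) =>
    (1 - chi0 ι q.1) * chi2 ι q.2.1) := by
  have h1 : ContDiff ℝ ∞ (fun q : E ι × Bil (E ι) × (ι × ι → Bil (E ι)) => chi0 ι q.1) :=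
    (chi0 ι).contDiff.comp contDiff_fst
  have h2 : ContDiff ℝ ∞ (fun q : E ι × Bil (E ι) × (ι × ι → Bil (E ι)) => chi2 ι q.2.1) :=
    (chi2 ι).contDiff.comp contDiff_g
  exact (contDiff_const.sub h1).mul h2

theorem FPhi_zero1 (Φ : E ι × Bil (E ι) × (E ι →L[ℝ] Bil (E ι)) → Bil (E ι))
    (q : E ι × Bil (E ι) × (ι × ι → Bil (E ι))) (h0 : q.1 = 0) :
    FPhi Φ =ᶠ[𝓝 q] fun _ => (0 : Bil (E ι)) := by
  have h2 : {q' : E ι × Bil (E ι) × (ι × ι → Bil (E ι)) | ‖q'.1‖ < 1 / 4} ∈ 𝓝 q := by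
    apply IsOpen.mem_nhds
    · exact isOpen_lt (continuous_fst.norm) continuous_const
    · show ‖q.1‖ < 1 / 4
      rw [h0]; norm_num
  filter_upwards [h2] with q' hq'
  unfold FPhi
  have h3 : chi0 ι q'.1 = 1 := (chi0 ι).one_of_mem_closedBall (by
    rw [mem_closedBall_zero_iff]; exact le_of_lt hq')
  rw [h3, sub_self, zero_mul, zero_smul]

theorem FPhi_zero2 (Φ : E ι × Bil (E ι) × (E ι →L[ℝ] Bil (E ι)) → Bil (E ι))
    (q : E ι × Bil (E ι) × (ι × ι → Bil (E ι))) (h : 1 ≤ ‖q.2.1 - del ι‖) :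
    FPhi Φ =ᶠ[𝓝 q] fun _ => (0 : Bil (E ι)) := by
  have h2 : {q' : E ι × Bil (E ι) × (ι × ι → Bil (E ι)) | 1 / 2 < ‖q'.2.1 - del ι‖} ∈ 𝓝 q := by
    apply IsOpen.mem_nhds
    · exact isOpen_lt continuous_const
        ((continuous_fst.comp continuous_snd).sub continuous_const).norm
    · show 1 / 2 < ‖q.2.1 - del ι‖
      linarith
  filter_upwards [h2] with q' hq'
  unfold FPhi
  rw [(chi2 ι).zero_of_le_dist (by rw [dist_eq_norm]; exact (le_of_lt hq')), mul_zero,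
    zero_smul]

theorem contDiff_FPhi {Φ : E ι × Bil (E ι) × (E ι →L[ℝ] Bil (E ι)) → Bil (E ι)}
    (hΦ : ContDiffOn ℝ ∞ Φ {q | q.1 ≠ 0 ∧ q.2.1.IsInvertible}) :
    ContDiff ℝ ∞ (FPhi Φ) := by
  rw [contDiff_iff_contDiffAt]
  intro q
  by_cases h0 : q.1 = 0
  · exact contDiffAt_const.congr_of_eventuallyEq (FPhi_zero1 Φ q h0)
  by_cases h : ‖q.2.1 - del ι‖ < 1
  · have hΦ' : ContDiffAt ℝ ∞ Φ (q.1, q.2.1, Qx q.1 q.2.1 q.2.2) :=
      contDiffAt_Phi hΦ _ ⟨h0, h⟩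
    have h3 : ContDiffAt ℝ ∞ (fun q : E ι × Bil (E ι) × (ι × ι → Bil (E ι)) =>
        Φ (q.1, q.2.1, Qx q.1 q.2.1 q.2.2)) q := ContDiffAt.comp q hΦ' contDiff_in.contDiffAt
    exact contDiff_cut.contDiffAt.smul h3
  · exact contDiffAt_const.congr_of_eventuallyEq (FPhi_zero2 Φ q (not_lt.1 h))

/-- the lower order part -/
def GF (Φ : E ι × Bil (E ι) × (E ι →L[ℝ] Bil (E ι)) → Bil (E ι))
    (q : E ι × Bil (E ι) × (ι × ι → Bil (E ι))) : Bil (E ι) :=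
  (∑ k, ∑ l, th k l q.2.1 • Skl k l q.1 q.2.1 q.2.2 0) - Cas q.1 q.2.1 q.2.2 + FPhi Φ q

theorem contDiff_GF {Φ : E ι × Bil (E ι) × (E ι →L[ℝ] Bil (E ι)) → Bil (E ι)}
    (hΦ : ContDiffOn ℝ ∞ Φ {q | q.1 ≠ 0 ∧ q.2.1.IsInvertible}) :
    ContDiff ℝ ∞ (GF Φ) := by
  have ht : ∀ k l, ContDiff ℝ ∞ (fun q : E ι × Bil (E ι) × (ι × ι → Bil (E ι)) =>
      th k l q.2.1) := fun k l => (contDiff_th k l).comp contDiff_g
  have h1 : ContDiff ℝ ∞ (fun q : E ι × Bil (E ι) × (ι × ι → Bil (E ι)) =>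
      ∑ k, ∑ l, th k l q.2.1 • Skl k l q.1 q.2.1 q.2.2 0) :=
    ContDiff.sum fun k _ => ContDiff.sum fun l _ => (ht k l).smul (contDiff_Skl0 k l)
  exact (h1.sub contDiff_Cas).add (contDiff_FPhi hΦ)

theorem qstr_id {Φ : E ι × Bil (E ι) × (E ι →L[ℝ] Bil (E ι)) → Bil (E ι)}
    {u : E ι → Bil (E ι)} (hs : ContDiffOn ℝ ∞ u (Om ι)) (hh : Homog u)
    {x : E ι} (hx : x ∈ Om ι) (h1 : ‖x‖ = 1) (hg : ‖u x - del ι‖ ≤ 1 / 4) :
    (∑ a, lieX (Jst a) (lieX (Jst a) u) x)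
      + cF (x, u x) (fun a b => lieX (Jst a) (lieX (Jst b) u) x)
      + GF Φ (x, u x, fun a => lieX (Jst a) u x) =
    ∑ k, ∑ l, ginv (u x) k l • fderiv ℝ (fderiv ℝ u) x (eb k) (eb l)
      + Φ (x, u x, fderiv ℝ u x) := by
  have hth : ∀ k l, th k l (u x) = ginv (u x) k l - (if k = l then 1 else 0) := by
    intro k l
    unfold th
    rw [chi2_one hg, one_mul, ginv_del]
  have hF : FPhi Φ (x, u x, fun a => lieX (Jst a) u x) = Φ (x, u x, fderiv ℝ u x) := by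
    unfold FPhi
    have h3 : chi0 ι x = 0 := (chi0 ι).zero_of_le_dist (by
      rw [dist_zero_right, h1]
      show (1 / 2 : ℝ) ≤ 1
      norm_num)
    show ((1 - chi0 ι x) * chi2 ι (u x)) • Φ (x, u x, Qx x (u x) (fun a => lieX (Jst a) u x)) = _
    rw [h3, chi2_one hg, ← Qx_eq hs hh hx h1]
    simp
  have hD : ∀ k l, ginv (u x) k l • fderiv ℝ (fderiv ℝ u) x (eb k) (eb l) =
      (if k = l then (1 : ℝ) else 0) • fderiv ℝ (fderiv ℝ u) x (eb k) (eb l)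
        + th k l (u x) • Skl k l x (u x) (fun a => lieX (Jst a) u x) 0
        + (2 * th k l (u x)) • ∑ i, ∑ j, (x i * x j) •
          lieX (Jst (k, j)) (lieX (Jst (l, i)) u) x := by
    intro k l
    have e1 := fderiv2_eb hs hh hx h1 k l
    rw [Skl_split] at e1
    have e2 : ginv (u x) k l = (if k = l then (1 : ℝ) else 0) + th k l (u x) := by
      rw [hth]; ring
    conv_lhs => rw [e2, add_smul]
    rw [add_assoc]
    congr 1
    rw [e1]
    module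
  have hcF : cF (x, u x) (fun a b => lieX (Jst a) (lieX (Jst b) u) x) =
      ∑ k, ∑ l, (2 * th k l (u x)) • ∑ i, ∑ j, (x i * x j) •
          lieX (Jst (k, j)) (lieX (Jst (l, i)) u) x := by
    unfold cF
    simp only [_root_.sum_apply, _root_.smul_apply, cc_apply]
  rw [Finset.sum_congr rfl fun k _ => Finset.sum_congr rfl fun l _ => hD k l]
  simp only [Finset.sum_add_distrib]
  rw [← hcF, casimir_eq hs hh hx h1]
  unfold GF
  rw [hF]
  have hdiag : ∑ k, ∑ l, (if k = l then (1 : ℝ) else 0) •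
      fderiv ℝ (fderiv ℝ u) x (eb k) (eb l) = ∑ k, fderiv ℝ (fderiv ℝ u) x (eb k) (eb k) := by
    refine Finset.sum_congr rfl fun k _ => ?_
    rw [Finset.sum_eq_single k]
    · rw [if_pos rfl, one_smul]
    · intro l _ hl
      rw [if_neg (fun h => hl h.symm), zero_smul]
    · intro h
      exact absurd (Finset.mem_univ k) h
  rw [hdiag]
  abel

theorem qStr (hR : RdtStructureStatement) : QStrStatement := by
  intro ι _ _
  obtain ⟨Φ, hΦ, hrdt⟩ := hR ι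
  obtain ⟨C, hC⟩ := cF_bound (ι := ι)
  refine ⟨cF, GF Φ, 1 / 4, C, contDiff_cF, contDiff_GF hΦ, by norm_num, hC, ?_⟩
  intro u hu hh x hx hg v w
  have hx0 : x ∈ Om ι := by
    intro h
    rw [h, norm_zero] at hx
    exact zero_ne_one hx
  rw [qstr_id hu.smooth hh hx0 hx hg, hrdt u (Om ι) hu subset_rfl x hx0 v w]
  simp only [_root_.add_apply, _root_.sum_apply, _root_.smul_apply, smul_eq_mul]

end Pool.Agent.Helper25RF
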